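import Mathlib

/-!
# Averages over all functions to `𝔽₂`

Averages of functions of finitely many coordinates over all `f : ℕ → 𝔽₂`, bounded convergence, and a
second moment argument: if the shifted events are asymptotically independent for every fixed `f`, then
the averages over `f` are concentrated.
-/

set_option autoImplicit false

open scoped Classical ENNReal

namespace Pool.Agent.J4H77.GF

open Finset MeasureTheory Filter Topology

/-- the indicator function of a set with values in `𝔽₂` -/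
noncomputable def ind (B : Finset ℕ) (p : ℕ) : ZMod 2 := if p ∈ B then 1 else 0

/-- the function only depends on the coordinates in `J` -/
def Dep (J : Finset ℕ) (h : (ℕ → ZMod 2) → ℝ) : Prop := ∀ f g, (∀ p ∈ J, f p = g p) → h f = h g

/-- the average over the functions on `J` -/
noncomputable def av (J : Finset ℕ) (h : (ℕ → ZMod 2) → ℝ) : ℝ :=
  (∑ B ∈ J.powerset, h (ind B)) / 2 ^ J.card

/-- a fair coin -/
noncomputable def coin : Measure Bool :=
  (2⁻¹ : ℝ≥0∞) • Measure.dirac true + (2⁻¹ : ℝ≥0∞) • Measure.dirac false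

instance : IsProbabilityMeasure coin := by
  constructor
  unfold coin
  simp [ENNReal.inv_two_add_inv_two]

theorem coin_sing (b : Bool) : coin {b} = 2⁻¹ := by
  unfold coin
  cases b <;> simp

/-- the product measure -/
noncomputable def mu : Measure (ℕ → Bool) := Measure.infinitePi fun _ => coin

instance : IsProbabilityMeasure mu := by
  unfold mu
  infer_instance

/-- the function with values in `𝔽₂` -/
def fo (w : ℕ → Bool) (p : ℕ) : ZMod 2 := if w p then 1 else 0

/-- cylinder sets -/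
def cy (J B : Finset ℕ) : Set (ℕ → Bool) := Set.pi (J : Set ℕ) fun p => {decide (p ∈ B)}

theorem cy_meas (J B : Finset ℕ) : MeasurableSet (cy J B) :=
  MeasurableSet.pi J.countable_toSet fun _ _ => measurableSet_singleton _

theorem cy_mu (J B : Finset ℕ) : mu.real (cy J B) = 1 / 2 ^ J.card := by
  unfold Measure.real mu cy
  rw [Measure.infinitePi_pi _ (fun _ _ => measurableSet_singleton _)]
  simp only [coin_sing, prod_const]
  rw [ENNReal.toReal_pow, ENNReal.toReal_inv]
  norm_num
  rw [one_div, inv_pow]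

theorem mem_cy {J B : Finset ℕ} (hB : B ⊆ J) (w : ℕ → Bool) :
    w ∈ cy J B ↔ B = J.filter fun p => w p = true := by
  unfold cy
  rw [Set.mem_pi]
  constructor
  · intro h
    ext p
    rw [mem_filter]
    constructor
    · intro hp
      have h1 := h p (hB hp)
      rw [Set.mem_singleton_iff] at h1
      exact ⟨hB hp, by rw [h1]; exact decide_eq_true hp⟩
    · rintro ⟨h1, h2⟩
      have h3 := h p h1
      rw [Set.mem_singleton_iff, h2] at h3
      exact of_decide_eq_true h3.symm
  · intro h p hp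
    rw [Set.mem_singleton_iff, h]
    cases hw : w p
    · symm
      rw [decide_eq_false_iff_not, mem_filter]
      rintro ⟨-, h2⟩
      rw [hw] at h2
      exact Bool.false_ne_true h2
    · symm
      rw [decide_eq_true_eq, mem_filter]
      exact ⟨hp, hw⟩

theorem fo_sum {J : Finset ℕ} {h : (ℕ → ZMod 2) → ℝ} (hd : Dep J h) (w : ℕ → Bool) :
    h (fo w) = ∑ B ∈ J.powerset, (cy J B).indicator (fun _ => h (ind B)) w := by
  set B₀ := J.filter fun p => w p = true with hB₀
  have h0 : B₀ ∈ J.powerset := mem_powerset.2 (filter_subset _ _)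
  rw [sum_eq_single_of_mem B₀ h0]
  · rw [Set.indicator_of_mem ((mem_cy (mem_powerset.1 h0) w).2 hB₀)]
    refine hd _ _ fun p hp => ?_
    unfold fo ind
    rw [hB₀]
    simp only [mem_filter, hp, true_and]
  · intro B hB hne
    rw [Set.indicator_of_notMem]
    intro h'
    exact hne ((mem_cy (mem_powerset.1 hB) w).1 h')

theorem meas {J : Finset ℕ} {h : (ℕ → ZMod 2) → ℝ} (hd : Dep J h) :
    Measurable fun w => h (fo w) := by
  have e : (fun w => h (fo w)) = fun w => ∑ B ∈ J.powerset,
      (cy J B).indicator (fun _ => h (ind B)) w := funext (fo_sum hd)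
  rw [e]
  exact Finset.measurable_sum _ fun B _ => measurable_const.indicator (cy_meas J B)

theorem int_eq {J : Finset ℕ} {h : (ℕ → ZMod 2) → ℝ} (hd : Dep J h) :
    ∫ w, h (fo w) ∂mu = av J h := by
  have e : (fun w => h (fo w)) = fun w => ∑ B ∈ J.powerset,
      (cy J B).indicator (fun _ => h (ind B)) w := funext (fo_sum hd)
  rw [e, integral_finsetSum]
  · unfold av
    rw [sum_div]
    refine sum_congr rfl fun B _ => ?_
    rw [integral_indicator_const _ (cy_meas J B), cy_mu, smul_eq_mul]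
    ring
  · intro B _
    exact (integrable_const _).indicator (cy_meas J B)

/-- the average does not depend on the set of coordinates -/
theorem av_eq {J J' : Finset ℕ} {h : (ℕ → ZMod 2) → ℝ} (hd : Dep J h) (hd' : Dep J' h) :
    av J h = av J' h := by
  rw [← int_eq hd, ← int_eq hd']

theorem dep_mono {J J' : Finset ℕ} (hJ : J ⊆ J') {h : (ℕ → ZMod 2) → ℝ} (hd : Dep J h) :
    Dep J' h := fun f g hfg => hd f g fun p hp => hfg p (hJ hp)

/-- bounded convergence -/
theorem dct {J : ℕ → Finset ℕ} {h : ℕ → (ℕ → ZMod 2) → ℝ} {L : ℝ} (hd : ∀ n, Dep (J n) (h n))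
    (hb : ∀ n f, |h n f| ≤ 1) (hl : ∀ f, Tendsto (fun n => h n f) atTop (𝓝 L)) :
    Tendsto (fun n => av (J n) (h n)) atTop (𝓝 L) := by
  have h1 : Tendsto (fun n => ∫ w, h n (fo w) ∂mu) atTop (𝓝 (∫ _w, L ∂mu)) := by
    refine tendsto_integral_of_dominated_convergence (fun _ => (1 : ℝ)) (fun n => ?_)
      (integrable_const _) (fun n => ?_) ?_
    · exact (meas (hd n)).aestronglyMeasurable
    · exact ae_of_all _ fun w => by rw [Real.norm_eq_abs]; exact hb n _
    · exact ae_of_all _ fun w => hl _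
  rw [integral_const, probReal_univ, one_smul] at h1
  refine h1.congr fun n => int_eq (hd n)

/-- averages are invariant under shifts -/
theorem av_shift {J : Finset ℕ} {h : (ℕ → ZMod 2) → ℝ} (hd : Dep J h) (η : ℕ → ZMod 2) :
    av J (fun f => h fun p => f p + η p) = av J h := by
  set E := J.filter fun p => η p ≠ 0 with hE
  have hEJ : E ⊆ J := filter_subset _ _
  unfold av
  congr 1
  refine sum_nbij' (fun B => symmDiff B E) (fun B => symmDiff B E) ?_ ?_ ?_ ?_ ?_
  · intro B hB
    rw [mem_powerset] at hB ⊢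
    intro p hp
    rw [mem_symmDiff] at hp
    rcases hp with hp | hp
    · exact hB hp.1
    · exact hEJ hp.1
  · intro B hB
    rw [mem_powerset] at hB ⊢
    intro p hp
    rw [mem_symmDiff] at hp
    rcases hp with hp | hp
    · exact hB hp.1
    · exact hEJ hp.1
  · intro B _
    exact symmDiff_symmDiff_cancel_right _ _
  · intro B _
    exact symmDiff_symmDiff_cancel_right _ _
  · intro B _
    refine hd _ _ fun p hp => ?_
    have hz : ∀ z : ZMod 2, z ≠ 0 → z = 1 := by decide
    have h11 : (1 : ZMod 2) + 1 = 0 := by decide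
    unfold ind
    by_cases h1 : p ∈ B <;> by_cases h2 : η p = 0
    · have h3 : p ∉ E := fun h' => (mem_filter.1 h').2 h2
      have h4 : p ∈ symmDiff B E := mem_symmDiff.2 (Or.inl ⟨h1, h3⟩)
      rw [if_pos h1, if_pos h4, h2, add_zero]
    · have h3 : p ∈ E := mem_filter.2 ⟨hp, h2⟩
      have h4 : p ∉ symmDiff B E := by
        rw [mem_symmDiff]
        rintro (h | h)
        · exact h.2 h3
        · exact h.2 h1
      rw [if_pos h1, if_neg h4, hz _ h2, h11]
    · have h3 : p ∉ E := fun h' => (mem_filter.1 h').2 h2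
      have h4 : p ∉ symmDiff B E := by
        rw [mem_symmDiff]
        rintro (h | h)
        · exact h1 h.1
        · exact h3 h.1
      rw [if_neg h1, if_neg h4, h2, add_zero]
    · have h3 : p ∈ E := mem_filter.2 ⟨hp, h2⟩
      have h4 : p ∈ symmDiff B E := mem_symmDiff.2 (Or.inr ⟨h3, h1⟩)
      rw [if_neg h1, if_pos h4, hz _ h2, zero_add]

/-- the square of the average -/
theorem av_sq (J : Finset ℕ) (h : (ℕ → ZMod 2) → ℝ) (κ : ℝ) :
    (av J h - κ) ^ 2 ≤ av J fun f => (h f - κ) ^ 2 := by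
  unfold av
  have hc : (0 : ℝ) < 2 ^ J.card := by positivity
  have h1 := sq_sum_le_card_mul_sum_sq (s := J.powerset) (f := fun B => h (ind B) - κ)
  rw [card_powerset, sum_sub_distrib, sum_const, card_powerset, nsmul_eq_mul] at h1
  push_cast at h1
  have h2 : (∑ B ∈ J.powerset, h (ind B)) / 2 ^ J.card - κ =
      (∑ B ∈ J.powerset, h (ind B) - 2 ^ J.card * κ) / 2 ^ J.card := by
    field_simp
  rw [h2, div_pow, div_le_div_iff₀ (by positivity) hc]
  nlinarith [h1, hc]

theorem av_nonneg {J : Finset ℕ} {h : (ℕ → ZMod 2) → ℝ} (h0 : ∀ f, 0 ≤ h f) : 0 ≤ av J h := by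
  unfold av
  exact div_nonneg (sum_nonneg fun B _ => h0 _) (by positivity)

theorem av_le {J : Finset ℕ} {h g : (ℕ → ZMod 2) → ℝ} (hl : ∀ f, h f ≤ g f) : av J h ≤ av J g := by
  unfold av
  gcongr with B _
  exact hl _

theorem av_sum {α : Type} (J : Finset ℕ) (s : Finset α) (h : α → (ℕ → ZMod 2) → ℝ) (c : ℝ) :
    av J (fun f => (∑ D ∈ s, h D f) / c) = (∑ D ∈ s, av J (h D)) / c := by
  unfold av
  rw [← sum_div, sum_comm, ← sum_div, div_div, div_div, mul_comm c]

/-- **concentration** -/
theorem conc {cls : ℕ → Finset ℕ} {J : ℕ → Finset ℕ} {a : ℕ → (ℕ → ZMod 2) → ℝ} {κ : ℝ}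
    (hκ0 : 0 ≤ κ) (hκ1 : κ ≤ 1) (hd : ∀ D, Dep (J D) (a D)) (h0 : ∀ D f, 0 ≤ a D f)
    (h1 : ∀ D f, a D f ≤ 1)
    (H : ∀ m : ℕ, 0 < m → ∃ η : Fin m → ℕ → ZMod 2, ∀ f : ℕ → ZMod 2, Tendsto (fun X =>
      (∑ D ∈ cls X, ((∑ i, a D fun p => f p + η i p) / m - κ) ^ 2) / ((cls X).card : ℝ)) atTop
      (𝓝 (κ * (1 - κ) / m))) :
    Tendsto (fun X => (∑ D ∈ cls X, (av (J D) (a D) - κ) ^ 2) / ((cls X).card : ℝ)) atTop
      (𝓝 0) := by
  -- the upper bound for each `m`
  have key : ∀ m : ℕ, 0 < m → ∀ᶠ X in atTop,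
      (∑ D ∈ cls X, (av (J D) (a D) - κ) ^ 2) / ((cls X).card : ℝ) ≤ 2 / m := by
    intro m hm
    have hm0 : (0 : ℝ) < m := by exact_mod_cast hm
    obtain ⟨η, hη⟩ := H m hm
    set g : ℕ → (ℕ → ZMod 2) → ℝ := fun D f => ((∑ i, a D fun p => f p + η i p) / m - κ) ^ 2
      with hg
    set h : ℕ → (ℕ → ZMod 2) → ℝ := fun X f => (∑ D ∈ cls X, g D f) / ((cls X).card : ℝ) with hh
    have gdep : ∀ D, Dep (J D) (g D) := by
      intro D f f' hf
      rw [hg]
      simp only
      congr 3
      refine sum_congr rfl fun i _ => ?_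
      exact hd D _ _ fun p hp => by rw [hf p hp]
    have gb : ∀ D f, 0 ≤ g D f ∧ g D f ≤ 1 := by
      intro D f
      refine ⟨sq_nonneg _, ?_⟩
      have e1 : 0 ≤ (∑ i, a D fun p => f p + η i p) / (m : ℝ) :=
        div_nonneg (sum_nonneg fun i _ => h0 D _) hm0.le
      have e2 : (∑ i, a D fun p => f p + η i p) / (m : ℝ) ≤ 1 := by
        rw [div_le_one hm0]
        calc ∑ i : Fin m, a D (fun p => f p + η i p) ≤ ∑ _i : Fin m, (1 : ℝ) :=
              sum_le_sum fun i _ => h1 D _
          _ = m := by simp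
      rw [hg]
      simp only
      rw [sq_le_one_iff_abs_le_one, abs_le]
      constructor <;> linarith
    have hdep : ∀ X, Dep ((cls X).biUnion J) (h X) := by
      intro X f f' hf
      rw [hh]
      simp only
      congr 1
      refine sum_congr rfl fun D hD => ?_
      exact gdep D f f' fun p hp => hf p (mem_biUnion.2 ⟨D, hD, hp⟩)
    have hb : ∀ X f, |h X f| ≤ 1 := by
      intro X f
      have e1 : 0 ≤ h X f := div_nonneg (sum_nonneg fun D _ => (gb D f).1) (Nat.cast_nonneg _)
      rw [abs_of_nonneg e1]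
      rw [hh]
      simp only
      refine div_le_one_of_le₀ ?_ (Nat.cast_nonneg _)
      calc ∑ D ∈ cls X, g D f ≤ ∑ _D ∈ cls X, (1 : ℝ) := sum_le_sum fun D _ => (gb D f).2
        _ = _ := by simp
    have lim := dct hdep hb hη
    have e3 : κ * (1 - κ) / m < 2 / m := by
      apply div_lt_div_of_pos_right _ hm0
      nlinarith
    filter_upwards [lim.eventually (gt_mem_nhds e3)] with X hX
    refine le_trans ?_ hX.le
    rw [hh]
    simp only
    rw [av_sum]
    refine div_le_div_of_nonneg_right (sum_le_sum fun D hD => ?_) (Nat.cast_nonneg _)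
    have e4 : av (J D) (a D) = av ((cls X).biUnion J)
        (fun f => (∑ i, a D fun p => f p + η i p) / (m : ℝ)) := by
      have hd' : Dep ((cls X).biUnion J) (a D) := dep_mono (subset_biUnion_of_mem J hD) (hd D)
      rw [av_sum, av_eq (hd D) hd']
      simp only [av_shift hd']
      rw [sum_const, card_univ, Fintype.card_fin, nsmul_eq_mul]
      field_simp
    rw [e4]
    exact av_sq _ _ κ
  rw [Metric.tendsto_atTop]
  intro ε hε
  obtain ⟨m, hm⟩ := exists_nat_gt (2 / ε)
  have hm0 : (0 : ℝ) < m := lt_trans (by positivity) hm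
  have hmn : 0 < m := by exact_mod_cast hm0
  obtain ⟨X₀, hX₀⟩ := eventually_atTop.1 (key m hmn)
  refine ⟨X₀, fun X hX => ?_⟩
  have e1 := hX₀ X hX
  have e2 : 0 ≤ (∑ D ∈ cls X, (av (J D) (a D) - κ) ^ 2) / ((cls X).card : ℝ) :=
    div_nonneg (sum_nonneg fun D _ => sq_nonneg _) (Nat.cast_nonneg _)
  rw [Real.dist_eq, sub_zero, abs_of_nonneg e2]
  refine lt_of_le_of_lt e1 ?_
  rw [div_lt_iff₀ hm0]
  rw [div_lt_iff₀ hε] at hm
  linarith

end Pool.Agent.J4H77.GF
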