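import Pool.Agent.R413.SQ.Stm
import Pool.Agent.J4H77.GF.Coin

/-!
# Prime twists of the family of `X_0(49)`: linear algebra over `𝔽₂`

The effect of one more inert prime on the matrix, and diagonals which make a matrix nonsingular.
-/

set_option autoImplicit false

open scoped Classical

namespace Pool.Agent.J4H77.GF

open Finset
open Pool.Agent.R413.SQ (mk Sp In Sol Gd cu)
open Pool.Agent.Y703.CQ (nr)

/-- the split primes of a set -/
noncomputable def sp (S : Finset ℕ) : Finset ℕ := S.filter fun p => mk p = 1

theorem mem_sp {S : Finset ℕ} {p : ℕ} : p ∈ sp S ↔ p ∈ S ∧ mk p = 1 := by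
  unfold sp
  rw [mem_filter]

theorem gd_insert {f : ℕ → ZMod 2} {S : Finset ℕ} {r : ℕ} (hr : mk r ≠ 1) (hS : r ∉ S) :
    Gd f (insert r S) ↔ Gd (fun p => f p + nr p r) S := by
  have key : ∀ x, Sol f (insert r S) x ↔ Sol (fun p => f p + nr p r) S x := by
    intro x
    unfold Sol
    rw [forall_mem_insert]
    constructor
    · rintro ⟨-, h⟩ p hp hm
      have h1 := h p hp hm
      rw [sum_insert hS] at h1
      have h2 : cu x r = 0 := by
        unfold cu
        rw [if_neg hr]
      rw [h2] at h1
      refine Eq.trans ?_ h1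
      beta_reduce
      ring
    · intro h
      refine ⟨fun hm => absurd hm hr, fun p hp hm => ?_⟩
      have h1 := h p hp hm
      rw [sum_insert hS]
      have h2 : cu x r = 0 := by
        unfold cu
        rw [if_neg hr]
      rw [h2]
      beta_reduce at h1
      refine Eq.trans ?_ h1
      ring
  unfold Gd
  constructor
  · intro h x hx p hp hm
    exact h x ((key x).2 hx) p (mem_insert_of_mem hp) hm
  · intro h x hx p hp hm
    rcases mem_insert.1 hp with rfl | hp
    · exact absurd hm hr
    · exact h x ((key x).1 hx) p hp hm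

theorem gd_congr {f g : ℕ → ZMod 2} {S : Finset ℕ} (h : ∀ p ∈ S, mk p = 1 → f p = g p) :
    Gd f S ↔ Gd g S := by
  have key : ∀ x, Sol f S x ↔ Sol g S x := by
    intro x
    unfold Sol
    refine forall_congr' fun p => forall_congr' fun hp => forall_congr' fun hm => ?_
    rw [h p hp hm]
  unfold Gd
  exact forall_congr' fun x => imp_congr_left (key x)

theorem gd_symm {f : ℕ → ZMod 2} {S : Finset ℕ} {r : ℕ} (hr : mk r ≠ 1) :
    Gd f (symmDiff S {r}) ↔ Gd (fun p => f p + nr p r) S := by
  by_cases hS : r ∈ S
  · have e1 : symmDiff S {r} = S.erase r := by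
      ext p
      simp only [mem_symmDiff, mem_singleton, mem_erase]
      constructor
      · rintro (⟨h1, h2⟩ | ⟨h1, h2⟩)
        · exact ⟨h2, h1⟩
        · exact absurd (h1 ▸ hS) h2
      · rintro ⟨h1, h2⟩
        exact Or.inl ⟨h2, h1⟩
    have e2 : S = insert r (S.erase r) := (insert_erase hS).symm
    rw [e1]
    conv_rhs => rw [e2]
    rw [gd_insert hr (notMem_erase r S)]
    refine gd_congr fun p _ _ => ?_
    rw [add_assoc, CharTwo.add_self_eq_zero, add_zero]
  · have e1 : symmDiff S {r} = insert r S := by
      ext p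
      simp only [mem_symmDiff, mem_singleton, mem_insert]
      constructor
      · rintro (⟨h1, h2⟩ | ⟨h1, h2⟩)
        · exact Or.inr h1
        · exact Or.inl h1
      · rintro (h | h)
        · exact Or.inr ⟨h, h ▸ hS⟩
        · exact Or.inl ⟨h, fun h' => hS (h' ▸ h)⟩
    rw [e1, gd_insert hr hS]

/-- every square matrix over `𝔽₂` becomes nonsingular by a change of the diagonal -/
theorem exists_diag (A : ℕ → ℕ → ZMod 2) (J : Finset ℕ) : ∃ B : Finset ℕ, B ⊆ J ∧
    ∀ x : ℕ → ZMod 2, (∀ i ∈ J, ∑ j ∈ J, A i j * x j + ind B i * x i = 0) → ∀ i ∈ J, x i = 0 := by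
  induction J using Finset.induction_on with
  | empty => exact ⟨∅, subset_rfl, fun x _ i hi => absurd hi (notMem_empty i)⟩
  | insert p J hp ih =>
    obtain ⟨B, hB, h⟩ := ih
    have hpB : p ∉ B := fun h' => hp (hB h')
    by_contra hcon
    push Not at hcon
    obtain ⟨x, hx, hx0⟩ := hcon B (hB.trans (subset_insert p J))
    obtain ⟨y, hy, hy0⟩ := hcon (insert p B) (insert_subset_insert p hB)
    -- the two vectors
    have hz2 : ∀ z : ZMod 2, z ≠ 0 → z = 1 := by decide
    have hxp : x p = 1 := by
      apply hz2
      intro h0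
      obtain ⟨i, hi, hne⟩ := hx0
      refine hne ?_
      rcases mem_insert.1 hi with rfl | hi
      · exact h0
      · refine h x (fun i hi => ?_) i hi
        have h1 := hx i (mem_insert_of_mem hi)
        rw [sum_insert hp, h0, mul_zero, zero_add] at h1
        exact h1
    have hyp : y p = 1 := by
      apply hz2
      intro h0
      obtain ⟨i, hi, hne⟩ := hy0
      refine hne ?_
      rcases mem_insert.1 hi with rfl | hi
      · exact h0
      · refine h y (fun i hi => ?_) i hi
        have h1 := hy i (mem_insert_of_mem hi)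
        rw [sum_insert hp, h0, mul_zero, zero_add] at h1
        have h2 : ind (insert p B) i = ind B i := by
          unfold ind
          have : i ≠ p := fun h' => hp (h' ▸ hi)
          simp [mem_insert, this]
        rw [h2] at h1
        exact h1
    have hxy : ∀ i ∈ J, x i = y i := by
      intro i hi
      have h0 := h (fun j => x j + y j) (fun i hi => ?_) i hi
      · exact CharTwo.add_eq_zero.1 h0
      · have h1 := hx i (mem_insert_of_mem hi)
        have h2 := hy i (mem_insert_of_mem hi)
        have h3 : ind (insert p B) i = ind B i := by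
          unfold ind
          have : i ≠ p := fun h' => hp (h' ▸ hi)
          simp [mem_insert, this]
        rw [sum_insert hp, hxp] at h1
        rw [sum_insert hp, hyp, h3] at h2
        have h4 := congrArg₂ (· + ·) h1 h2
        simp only [add_zero] at h4
        have h5 : A i p + A i p = 0 := CharTwo.add_self_eq_zero _
        rw [← h4]
        simp only [mul_add, sum_add_distrib]
        linear_combination -h5
    have h1 := hx p (mem_insert_self p J)
    have h2 := hy p (mem_insert_self p J)
    have h3 : ind (insert p B) p = 1 := by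
      unfold ind
      rw [if_pos (mem_insert_self p B)]
    have h4 : ind B p = 0 := by
      unfold ind
      rw [if_neg hpB]
    rw [sum_insert hp, hxp, h4] at h1
    rw [sum_insert hp, hyp, h3] at h2
    have h5 : ∑ j ∈ J, A p j * x j = ∑ j ∈ J, A p j * y j :=
      sum_congr rfl fun j hj => by rw [hxy j hj]
    rw [h5] at h1
    have h6 : (1 : ZMod 2) = 0 := by linear_combination h2 - h1
    exact one_ne_zero h6

/-- a diagonal change makes the matrix of `S` nonsingular -/
theorem exists_gd (f : ℕ → ZMod 2) (S : Finset ℕ) :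
    ∃ B : Finset ℕ, B ⊆ sp S ∧ Gd (fun p => f p + ind B p) S := by
  obtain ⟨B, hB, h⟩ := exists_diag
    (fun p q => nr p q + if p = q then ∑ s ∈ S, nr p s + f p else 0) (sp S)
  refine ⟨B, hB, fun x hx p hp hm => ?_⟩
  refine h x (fun i hi => ?_) p (mem_sp.2 ⟨hp, hm⟩)
  obtain ⟨hiS, him⟩ := mem_sp.1 hi
  have h1 := hx i hiS him
  refine Eq.trans ?_ h1
  beta_reduce
  have e1 : ∑ q ∈ S, nr i q * (cu x q + x i) = ∑ q ∈ sp S, nr i q * x q + (∑ q ∈ S, nr i q) * x i := by
    rw [sum_mul]
    have e2 : ∑ q ∈ sp S, nr i q * x q = ∑ q ∈ S, nr i q * cu x q := by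
      unfold sp
      rw [sum_filter]
      refine sum_congr rfl fun q _ => ?_
      unfold cu
      split_ifs
      · rfl
      · rw [mul_zero]
    rw [e2, ← sum_add_distrib]
    exact sum_congr rfl fun q _ => by ring
  have e3 : ∑ j ∈ sp S, (nr i j + if i = j then ∑ s ∈ S, nr i s + f i else 0) * x j =
      ∑ q ∈ sp S, nr i q * x q + (∑ s ∈ S, nr i s + f i) * x i := by
    simp only [add_mul, sum_add_distrib, ite_mul, zero_mul]
    rw [sum_ite_eq, if_pos hi]
  rw [e1, e3]
  ring

end Pool.Agent.J4H77.GF
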