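import Pool.Agent.H387R2.U3

/-!
# The density of the primes of a set of residue classes
-/

set_option autoImplicit false

open scoped Classical

namespace Pool.Agent.J4H77.GF

open Finset Filter Topology

/-- the number of the primes up to `x` with the property `R` -/
noncomputable def cn (R : ℕ → Prop) (x : ℕ) : ℝ :=
  (((Icc 1 x).filter fun p => p.Prime ∧ R p).card : ℝ)

/-- the number of the reduced residue classes with the property `R` -/
noncomputable def ct (q : ℕ) (R : ℕ → Prop) : ℕ :=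
  ((range q).filter fun a => a.Coprime q ∧ R a).card

theorem pi1_low : ∀ᶠ x : ℕ in atTop, (1 / 2 : ℝ) * (x / Real.log x) ≤ H343E.pi1 x := by
  filter_upwards [Pool.Agent.H387R2.Uni.pi1_lower (η := 1 / 2) (by norm_num)] with x hx
  calc (1 / 2 : ℝ) * (x / Real.log x) = (1 - 1 / 2) * (x / Real.log x) := by ring
    _ ≤ _ := hx

theorem pi1_inf : Tendsto (fun x : ℕ => H343E.pi1 x) atTop atTop := by
  have h1 : Tendsto (fun x : ℕ => (1 / 2 : ℝ) * ((x : ℝ) / Real.log x)) atTop atTop := by
    refine Tendsto.const_mul_atTop (by norm_num) ?_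
    have h2 : Tendsto (fun x : ℝ => x / Real.log x) atTop atTop := by
      have h3 := Real.tendsto_exp_div_pow_atTop 1
      have h4 := h3.comp Real.tendsto_log_atTop
      refine h4.congr' ?_
      filter_upwards [eventually_gt_atTop 0] with x hx
      simp only [Function.comp, pow_one]
      rw [Real.exp_log hx]
    exact h2.comp tendsto_natCast_atTop_atTop
  exact tendsto_atTop_mono' _ pi1_low h1

/-- the prime number theorem for a fixed reduced residue class -/
theorem ap {q a : ℕ} (hq : 1 ≤ q) (ha : a < q) (hc : a.Coprime q) :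
    Tendsto (fun x : ℕ => H343E.piAP x q a / H343E.pi1 x) atTop (𝓝 (1 / (Nat.totient q : ℝ))) := by
  obtain ⟨x0, h0⟩ := Pool.Agent.H387R2.Uni.siegel
  have hl : Tendsto (fun x : ℕ => Real.log (x : ℝ)) atTop atTop :=
    Real.tendsto_log_atTop.comp tendsto_natCast_atTop_atTop
  rw [tendsto_iff_norm_sub_tendsto_zero]
  have hb : Tendsto (fun x : ℕ => 2 / Real.log (x : ℝ)) atTop (𝓝 0) :=
    tendsto_const_nhds.div_atTop hl
  refine tendsto_of_tendsto_of_tendsto_of_le_of_le' tendsto_const_nhds hb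
    (Eventually.of_forall fun x => norm_nonneg _) ?_
  filter_upwards [pi1_low, eventually_ge_atTop x0, hl.eventually_ge_atTop (q : ℝ),
    hl.eventually_ge_atTop 1, eventually_ge_atTop 1] with x h1 h2 h3 h4 h5
  have hx : (0 : ℝ) < x := by exact_mod_cast h5
  have hL : 0 < Real.log (x : ℝ) := by linarith
  have hq2 : (q : ℝ) ≤ Real.log x ^ 2 := by
    calc (q : ℝ) ≤ Real.log x := h3
      _ = Real.log x ^ 1 := (pow_one _).symm
      _ ≤ Real.log x ^ 2 := pow_le_pow_right₀ h4 (by norm_num)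
  have h6 := h0 x h2 q hq hq2 a ha hc
  have hp : 0 < H343E.pi1 x := lt_of_lt_of_le (by positivity) h1
  rw [Real.norm_eq_abs]
  have e1 : H343E.piAP x q a / H343E.pi1 x - 1 / (Nat.totient q : ℝ) =
      (H343E.piAP x q a - H343E.pi1 x / (Nat.totient q : ℝ)) / H343E.pi1 x := by
    field_simp
  rw [e1, abs_div, abs_of_pos hp, div_le_div_iff₀ hp hL]
  calc |H343E.piAP x q a - H343E.pi1 x / (Nat.totient q : ℝ)| * Real.log x
      ≤ x / Real.log x ^ 6 * Real.log x := by gcongr
    _ ≤ x / Real.log x ^ 2 * Real.log x := by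
        gcongr
        norm_num
    _ = 2 * ((1 / 2 : ℝ) * (x / Real.log x)) := by
        field_simp
    _ ≤ 2 * H343E.pi1 x := by gcongr

/-- a class which is not reduced contains few primes -/
theorem ap0 {q a : ℕ} (hq : 1 ≤ q) (hc : ¬ a.Coprime q) :
    Tendsto (fun x : ℕ => H343E.piAP x q a / H343E.pi1 x) atTop (𝓝 0) := by
  have hb : Tendsto (fun x : ℕ => (q : ℝ) / H343E.pi1 x) atTop (𝓝 0) :=
    tendsto_const_nhds.div_atTop pi1_inf
  refine tendsto_of_tendsto_of_tendsto_of_le_of_le tendsto_const_nhds hb (fun x => ?_) fun x => ?_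
  · unfold H343E.piAP H343E.pi1
    positivity
  · have h1 : H343E.piAP x q a ≤ q := by
      unfold H343E.piAP
      have h2 : ((Icc 1 x).filter fun p => p.Prime ∧ p ≡ a [MOD q]) ⊆ Icc 1 q := by
        intro p hp
        rw [mem_filter] at hp
        obtain ⟨-, h3, h4⟩ := hp
        rw [mem_Icc]
        refine ⟨h3.one_lt.le, ?_⟩
        obtain ⟨l, hl, hla, hlq⟩ := Nat.Prime.not_coprime_iff_dvd.1 hc
        have h5 : l ∣ p := (h4.dvd_iff hlq).2 hla
        have h6 : l = p := (Nat.prime_dvd_prime_iff_eq hl h3).1 h5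
        exact Nat.le_of_dvd (by omega) (h6 ▸ hlq)
      have h3 := card_le_card h2
      rw [Nat.card_Icc, Nat.add_sub_cancel] at h3
      exact_mod_cast h3
    have h4 : 0 ≤ H343E.pi1 x := by
      unfold H343E.pi1
      positivity
    show H343E.piAP x q a / H343E.pi1 x ≤ (q : ℝ) / H343E.pi1 x
    exact div_le_div_of_nonneg_right h1 h4

/-- **the density of a set of residue classes** -/
theorem cn_lim {q : ℕ} (hq : 1 ≤ q) {R : ℕ → Prop} (hR : ∀ n, R (n % q) ↔ R n) :
    Tendsto (fun x : ℕ => cn R x / H343E.pi1 x) atTop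
      (𝓝 ((ct q R : ℝ) / (Nat.totient q : ℝ))) := by
  have e1 : ∀ x, cn R x = ∑ a ∈ (range q).filter R, H343E.piAP x q a := by
    intro x
    unfold cn H343E.piAP
    have h1 := card_eq_sum_card_fiberwise (s := (Icc 1 x).filter fun p => p.Prime ∧ R p)
      (t := (range q).filter R) (f := fun p => p % q) (fun p hp => by
        have hp' := mem_filter.1 (mem_coe.1 hp)
        rw [mem_coe, mem_filter, mem_range]
        exact ⟨Nat.mod_lt _ (by omega), (hR p).2 hp'.2.2⟩)
    rw [h1]
    push_cast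
    refine sum_congr rfl fun a ha => ?_
    obtain ⟨ha1, ha2⟩ := mem_filter.1 ha
    rw [mem_range] at ha1
    congr 2
    ext p
    simp only [mem_filter]
    constructor
    · rintro ⟨⟨h2, h3, h4⟩, h5⟩
      refine ⟨h2, h3, ?_⟩
      unfold Nat.ModEq
      rw [h5, Nat.mod_eq_of_lt ha1]
    · rintro ⟨h2, h3, h4⟩
      unfold Nat.ModEq at h4
      rw [Nat.mod_eq_of_lt ha1] at h4
      refine ⟨⟨h2, h3, ?_⟩, h4⟩
      rw [← hR, h4]
      exact ha2
  have e2 : (fun x : ℕ => cn R x / H343E.pi1 x) =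
      fun x : ℕ => ∑ a ∈ (range q).filter R, H343E.piAP x q a / H343E.pi1 x := by
    funext x
    rw [e1, sum_div]
  rw [e2]
  have h2 : Tendsto (fun x : ℕ => ∑ a ∈ (range q).filter R, H343E.piAP x q a / H343E.pi1 x) atTop
      (𝓝 (∑ a ∈ (range q).filter R, if a.Coprime q then 1 / (Nat.totient q : ℝ) else 0)) := by
    refine tendsto_finsetSum _ fun a ha => ?_
    obtain ⟨ha1, ha2⟩ := mem_filter.1 ha
    rw [mem_range] at ha1
    split_ifs with hc
    · exact ap hq ha1 hc
    · exact ap0 hq hc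
  convert h2 using 2
  rw [← sum_filter, sum_const, nsmul_eq_mul, mul_one_div, filter_filter]
  unfold ct
  congr 3
  ext a
  simp only [mem_filter, mem_range]
  tauto

/-- quotients -/
theorem cn_ratio {q : ℕ} (hq : 1 ≤ q) {R R' : ℕ → Prop} (hR : ∀ n, R (n % q) ↔ R n)
    (hR' : ∀ n, R' (n % q) ↔ R' n) (hpos : 0 < ct q R') :
    Tendsto (fun x : ℕ => cn R x / cn R' x) atTop (𝓝 ((ct q R : ℝ) / (ct q R' : ℝ))) := by
  have h1 := cn_lim hq hR
  have h2 := cn_lim hq hR'
  have ht : (0 : ℝ) < Nat.totient q := by exact_mod_cast Nat.totient_pos.2 (by omega)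
  have hp : (0 : ℝ) < (ct q R' : ℝ) := by exact_mod_cast hpos
  have h3 := h1.div h2 (by positivity)
  have e1 : (ct q R : ℝ) / (Nat.totient q : ℝ) / ((ct q R' : ℝ) / (Nat.totient q : ℝ)) =
      (ct q R : ℝ) / (ct q R' : ℝ) := by
    field_simp
  rw [e1] at h3
  refine h3.congr' ?_
  filter_upwards [pi1_inf.eventually_gt_atTop 0] with x hx
  simp only [Pi.div_apply]
  field_simp

/-- the number of the primes tends to infinity -/
theorem cn_inf {q : ℕ} (hq : 1 ≤ q) {R : ℕ → Prop} (hR : ∀ n, R (n % q) ↔ R n)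
    (hpos : 0 < ct q R) : Tendsto (fun x : ℕ => cn R x) atTop atTop := by
  have h1 := cn_lim hq hR
  have ht : (0 : ℝ) < Nat.totient q := by exact_mod_cast Nat.totient_pos.2 (by omega)
  have hp : (0 : ℝ) < (ct q R : ℝ) := by exact_mod_cast hpos
  have h2 := h1.pos_mul_atTop (by positivity) pi1_inf
  refine h2.congr' ?_
  filter_upwards [pi1_inf.eventually_gt_atTop 0] with x hx
  field_simp

/-- finitely many primes do not matter -/
theorem ratio_congr {R R' Q : ℕ → Prop} {E : Finset ℕ} {L : ℝ}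
    (h : ∀ p, p.Prime → p ∉ E → (R p ↔ R' p)) (hi : Tendsto (fun x : ℕ => cn Q x) atTop atTop)
    (hl : Tendsto (fun x : ℕ => cn R x / cn Q x) atTop (𝓝 L)) :
    Tendsto (fun x : ℕ => cn R' x / cn Q x) atTop (𝓝 L) := by
  have key : ∀ {A B : ℕ → Prop}, (∀ p, p.Prime → p ∉ E → (A p ↔ B p)) → ∀ x,
      cn A x ≤ cn B x + E.card := by
    intro A B hAB x
    unfold cn
    have h1 : ((Icc 1 x).filter fun p => p.Prime ∧ A p) ⊆
        ((Icc 1 x).filter fun p => p.Prime ∧ B p) ∪ E := by
      intro p hp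
      obtain ⟨h2, h3, h4⟩ := mem_filter.1 hp
      by_cases hE : p ∈ E
      · exact mem_union_right _ hE
      · exact mem_union_left _ (mem_filter.2 ⟨h2, h3, (hAB p h3 hE).1 h4⟩)
    have h2 := (card_le_card h1).trans (card_union_le _ _)
    exact_mod_cast h2
  have hz : Tendsto (fun x : ℕ => (E.card : ℝ) / cn Q x) atTop (𝓝 0) :=
    tendsto_const_nhds.div_atTop hi
  have hd : Tendsto (fun x : ℕ => cn R' x / cn Q x - cn R x / cn Q x) atTop (𝓝 0) := by
    rw [tendsto_zero_iff_norm_tendsto_zero]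
    refine tendsto_of_tendsto_of_tendsto_of_le_of_le' tendsto_const_nhds hz
      (Eventually.of_forall fun x => norm_nonneg _) ?_
    filter_upwards [hi.eventually_gt_atTop 0] with x hx
    have h1 := key h x
    have h2 := key (fun p hp hE => (h p hp hE).symm) x
    rw [Real.norm_eq_abs, ← sub_div, abs_div, abs_of_pos hx]
    refine div_le_div_of_nonneg_right ?_ hx.le
    rw [abs_le]
    constructor <;> linarith
  have h3 := hd.add hl
  simp only [sub_add_cancel, zero_add] at h3
  exact h3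

end Pool.Agent.J4H77.GF
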