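import Pool.Agent.J4H77.GF.Alg
import Pool.Agent.J4H77.GF.Sym

/-!
# The inert primes with given quadratic symbols
-/

set_option autoImplicit false

open scoped Classical

namespace Pool.Agent.J4H77.GF

open Finset Filter Topology
open Pool.Agent.R413.SQ (mk Sp In Sol Gd cu)
open Pool.Agent.Y703.CQ (nr)

/-- a set of split primes `1` modulo `4` -/
def SpU (U : Finset ℕ) : Prop := ∀ u ∈ U, u.Prime ∧ u % 4 = 1 ∧ R413.SQ.mk u = 1

/-- the modulus -/
def md (U : Finset ℕ) : ℕ := 28 * ∏ u ∈ U, u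

theorem nr_mod {u q : ℕ} (h : u ∣ q) (n : ℕ) : nr u (n % q) = nr u n := by
  unfold nr
  have h1 : ((n % q : ℕ) : ZMod u) = (n : ZMod u) := by
    rw [ZMod.natCast_eq_natCast_iff]
    exact (Nat.mod_modEq n q).of_dvd h
  rw [h1]

theorem nr_mul {u x y : ℕ} (hu : u.Prime) (hx : ¬ u ∣ x) (hy : ¬ u ∣ y) :
    nr u (x * y) = nr u x + nr u y := by
  haveI := Fact.mk hu
  have hx0 : (x : ZMod u) ≠ 0 := fun h => hx ((ZMod.natCast_eq_zero_iff x u).1 h)
  have hy0 : (y : ZMod u) ≠ 0 := fun h => hy ((ZMod.natCast_eq_zero_iff y u).1 h)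
  have h11 : (1 : ZMod 2) + 1 = 0 := by decide
  unfold nr
  push_cast
  by_cases h1 : IsSquare (x : ZMod u) <;> by_cases h2 : IsSquare (y : ZMod u)
  · rw [if_pos (h1.mul h2), if_pos h1, if_pos h2, add_zero]
  · have h3 : ¬ IsSquare ((x : ZMod u) * y) := by
      intro h3
      apply h2
      have h4 : (y : ZMod u) = (x : ZMod u)⁻¹ * ((x : ZMod u) * y) := by
        rw [inv_mul_cancel_left₀ hx0]
      rw [h4]
      exact h1.inv.mul h3
    rw [if_neg h3, if_pos h1, if_neg h2, zero_add]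
  · have h3 : ¬ IsSquare ((x : ZMod u) * y) := by
      intro h3
      apply h1
      have h4 : (x : ZMod u) = ((x : ZMod u) * y) * (y : ZMod u)⁻¹ := by
        rw [mul_inv_cancel_right₀ hy0]
      rw [h4]
      exact h3.mul h2.inv
    rw [if_neg h3, if_neg h1, if_pos h2, add_zero]
  · have h3 : IsSquare ((x : ZMod u) * y) := by
      rw [← quadraticChar_one_iff_isSquare (mul_ne_zero hx0 hy0), map_mul,
        quadraticChar_neg_one_iff_not_isSquare.2 h1, quadraticChar_neg_one_iff_not_isSquare.2 h2]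
      norm_num
    rw [if_pos h3, if_neg h1, if_neg h2, h11]

theorem exists_non {u : ℕ} (hu : u.Prime) (h4 : u % 4 = 1) : ∃ n : ℕ, ¬ u ∣ n ∧ nr u n = 1 := by
  haveI := Fact.mk hu
  obtain ⟨a, ha⟩ := FiniteField.exists_nonsquare (F := ZMod u) (by
    rw [ZMod.ringChar_zmod_n]
    rintro rfl
    norm_num at h4)
  refine ⟨a.val, fun h => ?_, ?_⟩
  · apply ha
    have h1 := (ZMod.natCast_eq_zero_iff a.val u).2 h
    rw [ZMod.natCast_zmod_val] at h1
    rw [h1]
    exact IsSquare.zero
  · unfold nr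
    rw [ZMod.natCast_zmod_val, if_neg ha]

theorem cop28 {U : Finset ℕ} (hU : SpU U) {u : ℕ} (hu : u ∈ U) : Nat.Coprime 28 u := by
  obtain ⟨h1, h2, h3⟩ := hU u hu
  rw [Nat.coprime_comm, Nat.Prime.coprime_iff_not_dvd h1]
  intro h
  have h4 : u ≤ 28 := Nat.le_of_dvd (by norm_num) h
  interval_cases u <;> revert h2 h h1 <;> norm_num

/-- the auxiliary multiplier -/
theorem exists_g {U B : Finset ℕ} (hU : SpU U) (hB : B ⊆ U) : ∃ g : ℕ, g % 28 = 1 ∧
    ∀ u ∈ U, ¬ u ∣ g ∧ nr u g = ind B u := by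
  choose! n hn1 hn2 using fun (u : ℕ) (hu : u.Prime ∧ u % 4 = 1) => exists_non hu.1 hu.2
  obtain ⟨k, hk⟩ := Nat.chineseRemainderOfFinset (fun u : ℕ => if u ∈ B then n u else 1)
    (fun u : ℕ => u) (insert 28 U) (fun i hi => by
      rcases mem_insert.1 hi with rfl | hi
      · norm_num
      · exact (hU i hi).1.ne_zero) (by
      intro i hi j hj hij
      rw [Function.onFun]
      rw [mem_coe, mem_insert] at hi hj
      rcases hi with rfl | hi <;> rcases hj with rfl | hj
      · exact absurd rfl hij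
      · exact cop28 hU hj
      · exact (cop28 hU hi).symm
      · exact (Nat.coprime_primes (hU i hi).1 (hU j hj).1).2 hij)
  have h28 : 28 ∉ B := fun h => by
    have h1 := (hU 28 (hB h)).1
    revert h1
    norm_num
  refine ⟨k, ?_, fun u hu => ?_⟩
  · have h1 := hk 28 (mem_insert_self _ _)
    simp only [h28, if_false] at h1
    exact h1
  · obtain ⟨h1, h2, h3⟩ := hU u hu
    have h4 := hk u (mem_insert_of_mem hu)
    have h5 : nr u k = nr u (if u ∈ B then n u else 1) := by
      rw [← nr_mod (dvd_refl u) k, h4, nr_mod (dvd_refl u)]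
    have h6 : u ∣ k ↔ u ∣ (if u ∈ B then n u else 1) := h4.dvd_iff (dvd_refl u)
    rw [h5, h6]
    unfold ind
    by_cases hb : u ∈ B
    · rw [if_pos hb, if_pos hb]
      exact ⟨hn1 u ⟨h1, h2⟩, hn2 u ⟨h1, h2⟩⟩
    · rw [if_neg hb, if_neg hb]
      refine ⟨fun h => h1.one_lt.ne' (Nat.dvd_one.1 h), ?_⟩
      unfold nr
      rw [if_pos (by rw [Nat.cast_one]; exact IsSquare.one)]

/-- the residue classes with given symbols -/
noncomputable def AA (U B : Finset ℕ) : Finset ℕ := (range (md U)).filter fun a =>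
  a.Coprime (md U) ∧ (a % 4 = 1 ∧ R413.SQ.mk a ≠ 1) ∧ ∀ u ∈ U, nr u a = ind B u

theorem dvd_md {U : Finset ℕ} {u : ℕ} (hu : u ∈ U) : u ∣ md U :=
  (dvd_prod_of_mem (fun u => u) hu).mul_left 28

theorem md_pos {U : Finset ℕ} (hU : SpU U) : 0 < md U := by
  unfold md
  exact Nat.mul_pos (by norm_num) (prod_pos fun u hu => (hU u hu).1.pos)

theorem mk_congr {a b : ℕ} (h : a % 7 = b % 7) : R413.SQ.mk a = R413.SQ.mk b := by
  unfold R413.SQ.mk
  rw [h]

theorem cop_md {U : Finset ℕ} {g : ℕ} (h28 : Nat.Coprime g 28) (hU : SpU U)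
    (h : ∀ u ∈ U, ¬ u ∣ g) : Nat.Coprime g (md U) := by
  unfold md
  refine Nat.Coprime.mul_right h28 (Nat.Coprime.prod_right fun u hu => ?_)
  rw [Nat.coprime_comm, Nat.Prime.coprime_iff_not_dvd (hU u hu).1]
  exact h u hu

theorem AA_le {U B : Finset ℕ} (hU : SpU U) {g : ℕ} (hg : g % 28 = 1) (hgu : ∀ u ∈ U, ¬ u ∣ g)
    {E : Finset ℕ} (hE : ∀ u ∈ U, nr u g = ind E u) :
    (AA U B).card ≤ (AA U (symmDiff B E)).card := by
  have hq := md_pos hU
  have h28 : Nat.Coprime g 28 := by
    unfold Nat.Coprime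
    rw [Nat.gcd_comm, Nat.gcd_rec, hg]
    norm_num
  have hgq : Nat.Coprime g (md U) := cop_md h28 hU hgu
  have d28 : 28 ∣ md U := dvd_mul_right _ _
  refine card_le_card_of_injOn (fun a => a * g % md U) ?_ ?_
  · intro a ha
    have ha' := mem_filter.1 (mem_coe.1 ha)
    obtain ⟨h1, h2, ⟨h3, h4⟩, h5⟩ := ha'
    rw [mem_coe]
    unfold AA
    rw [mem_filter, mem_range]
    have hmod : ∀ d, d ∣ md U → (a * g % md U) % d = (a * g) % d := fun d hd =>
      Nat.mod_mod_of_dvd _ hd
    refine ⟨Nat.mod_lt _ hq, ?_, ⟨?_, ?_⟩, fun u hu => ?_⟩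
    · have h6 : Nat.Coprime (a * g) (md U) := Nat.Coprime.mul_left h2 hgq
      have h7 := (Nat.mod_modEq (a * g) (md U)).gcd_eq
      unfold Nat.Coprime at h6 ⊢
      rw [h7]
      exact h6
    · simp only
      rw [hmod 4 (Dvd.dvd.trans (by norm_num) d28), Nat.mul_mod, h3]
      omega
    · have h6 : R413.SQ.mk (a * g % md U) = R413.SQ.mk a := by
        refine mk_congr ?_
        rw [hmod 7 (Dvd.dvd.trans (by norm_num) d28), Nat.mul_mod]
        have : g % 7 = 1 := by omega
        rw [this, mul_one, Nat.mod_mod]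
      simp only
      rw [h6]
      exact h4
    · simp only
      have hua : ¬ u ∣ a := by
        intro h
        have h7 := Nat.dvd_gcd h (dvd_md hu)
        rw [h2.gcd_eq_one] at h7
        exact (hU u hu).1.one_lt.ne' (Nat.dvd_one.1 h7)
      rw [nr_mod (dvd_md hu), nr_mul (hU u hu).1 hua (hgu u hu), h5 u hu, hE u hu]
      have h11 : (1 : ZMod 2) + 1 = 0 := by decide
      unfold ind
      by_cases b1 : u ∈ B <;> by_cases b2 : u ∈ E <;> simp [b1, b2, mem_symmDiff, h11]
  · intro a ha b hb hab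
    have ha' := mem_range.1 (mem_filter.1 (mem_coe.1 ha)).1
    have hb' := mem_range.1 (mem_filter.1 (mem_coe.1 hb)).1
    have h1 : a * g ≡ b * g [MOD md U] := hab
    have h2 : a ≡ b [MOD md U] := Nat.ModEq.cancel_right_of_coprime (by
      rw [Nat.gcd_comm]
      exact hgq) h1
    unfold Nat.ModEq at h2
    rwa [Nat.mod_eq_of_lt ha', Nat.mod_eq_of_lt hb'] at h2

/-- all sign patterns have the same number of residue classes -/
theorem AA_card {U B : Finset ℕ} (hU : SpU U) (hB : B ⊆ U) : (AA U B).card = (AA U ∅).card := by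
  obtain ⟨g, h1, h2⟩ := exists_g hU hB
  have e1 := AA_le (B := B) hU h1 (fun u hu => (h2 u hu).1) (fun u hu => (h2 u hu).2)
  have e2 := AA_le (B := ∅) hU h1 (fun u hu => (h2 u hu).1) (fun u hu => (h2 u hu).2)
  rw [symmDiff_self] at e1
  have e3 : symmDiff (∅ : Finset ℕ) B = B := bot_symmDiff B
  rw [e3] at e2
  exact le_antisymm e1 e2

/-- the inert primes `1` modulo `4` -/
def Ine (r : ℕ) : Prop := r % 4 = 1 ∧ R413.SQ.mk r ≠ 1

/-- the number of the residue classes with a property of the symbols -/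
theorem cls_card {U : Finset ℕ} (hU : SpU U) {P : (ℕ → ZMod 2) → Prop}
    (hP : ∀ f g, (∀ u ∈ U, f u = g u) → (P f ↔ P g)) :
    ct (md U) (fun a => Ine a ∧ P fun u => nr u a) =
      (U.powerset.filter fun B => P (ind B)).card * (AA U ∅).card := by
  have hz : ∀ z : ZMod 2, z ≠ 0 → z = 1 := by decide
  have key : ∀ a (B : Finset ℕ), B ⊆ U → ((U.filter fun u => nr u a ≠ 0) = B ↔
      ∀ u ∈ U, nr u a = ind B u) := by
    intro a B hB
    constructor
    · intro h u hu
      unfold ind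
      by_cases hb : u ∈ B
      · rw [if_pos hb]
        rw [← h] at hb
        exact hz _ (mem_filter.1 hb).2
      · rw [if_neg hb]
        by_contra h0
        apply hb
        rw [← h]
        exact mem_filter.2 ⟨hu, h0⟩
    · intro h
      ext u
      rw [mem_filter]
      constructor
      · rintro ⟨hu, h0⟩
        rw [h u hu] at h0
        unfold ind at h0
        by_contra hb
        rw [if_neg hb] at h0
        exact h0 rfl
      · intro hb
        refine ⟨hB hb, ?_⟩
        rw [h u (hB hb)]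
        unfold ind
        rw [if_pos hb]
        exact one_ne_zero
  unfold ct
  rw [card_eq_sum_card_fiberwise (t := U.powerset.filter fun B => P (ind B))
    (f := fun a => U.filter fun u => nr u a ≠ 0)]
  · rw [sum_congr rfl (g := fun _ => (AA U ∅).card), sum_const, smul_eq_mul]
    intro B hB
    obtain ⟨hB1, hB2⟩ := mem_filter.1 hB
    rw [mem_powerset] at hB1
    rw [← AA_card hU hB1]
    congr 1
    unfold AA Ine
    ext a
    simp only [mem_filter]
    rw [key a B hB1]
    constructor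
    · rintro ⟨⟨h0, h1, h2, -⟩, h3⟩
      exact ⟨h0, h1, h2, h3⟩
    · rintro ⟨h0, h1, h2, h3⟩
      exact ⟨⟨h0, h1, h2, (hP _ _ h3).2 hB2⟩, h3⟩
  · intro a ha
    rw [mem_coe] at ha
    simp only [mem_filter] at ha
    obtain ⟨-, -, -, h4⟩ := ha
    rw [mem_coe, mem_filter, mem_powerset]
    refine ⟨filter_subset _ _, ?_⟩
    exact (hP _ _ ((key a _ (filter_subset _ _)).1 rfl)).1 h4

theorem AA_pos {U : Finset ℕ} (hU : SpU U) : 0 < (AA U ∅).card := by
  have h1 := cls_card hU (P := fun _ => True) fun _ _ _ => Iff.rfl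
  have h2 : 0 < ct (md U) (fun a => Ine a ∧ True) := by
    unfold ct
    rw [card_pos]
    refine ⟨5, ?_⟩
    simp only [mem_filter]
    refine ⟨?_, ?_, ⟨by norm_num, ?_⟩, trivial⟩
    · rw [mem_range]
      unfold md
      have : 0 < ∏ u ∈ U, u := prod_pos fun u hu => (hU u hu).1.pos
      omega
    · refine cop_md (by norm_num) hU fun u hu h => ?_
      have h3 := (Nat.prime_dvd_prime_iff_eq (hU u hu).1 Nat.prime_five).1 h
      have h4 := (hU u hu).2.2
      rw [h3] at h4
      revert h4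
      unfold R413.SQ.mk
      norm_num
    · unfold R413.SQ.mk
      norm_num
  rw [h1] at h2
  exact Nat.pos_of_mul_pos_left h2

theorem ine_mod {U : Finset ℕ} (n : ℕ) : Ine (n % md U) ↔ Ine n := by
  have d28 : 28 ∣ md U := dvd_mul_right _ _
  unfold Ine
  rw [Nat.mod_mod_of_dvd _ (Dvd.dvd.trans (by norm_num) d28),
    mk_congr (Nat.mod_mod_of_dvd n (Dvd.dvd.trans (by norm_num) d28 : 7 ∣ md U))]

theorem ct_ine {U : Finset ℕ} (hU : SpU U) : ct (md U) Ine = 2 ^ U.card * (AA U ∅).card := by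
  have h1 := cls_card hU (P := fun _ => True) fun _ _ _ => Iff.rfl
  simp only [and_true] at h1
  have e : ∀ (inst : DecidablePred fun _ : Finset ℕ => True),
      @Finset.filter _ (fun _ => True) inst U.powerset = U.powerset := by
    intro inst
    ext B
    simp
  have h2 : ct (md U) Ine = ct (md U) fun a => Ine a := rfl
  rw [h2, h1, e, card_powerset]

theorem ct_pos {U : Finset ℕ} (hU : SpU U) : 0 < ct (md U) Ine := by
  rw [ct_ine hU]
  exact Nat.mul_pos (by positivity) (AA_pos hU)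

theorem ine_inf : Tendsto (fun x : ℕ => cn Ine x) atTop atTop := by
  have hU : SpU ∅ := fun u hu => absurd hu (notMem_empty u)
  exact cn_inf (q := md ∅) (md_pos hU) (fun n => ine_mod n) (ct_pos hU)

/-- **the density of the inert primes with a property of the symbols** -/
theorem dens {U : Finset ℕ} (hU : SpU U) {P : (ℕ → ZMod 2) → Prop}
    (hP : ∀ f g, (∀ u ∈ U, f u = g u) → (P f ↔ P g)) :
    Tendsto (fun x : ℕ => cn (fun r => Ine r ∧ P fun u => nr u r) x / cn Ine x) atTop
      (𝓝 (av U fun f => if P f then 1 else 0)) := by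
  have hR : ∀ n, (Ine (n % md U) ∧ P fun u => nr u (n % md U)) ↔ (Ine n ∧ P fun u => nr u n) := by
    intro n
    rw [ine_mod]
    refine and_congr_right fun _ => hP _ _ fun u hu => nr_mod (dvd_md hu) n
  have hN : (0 : ℝ) < ((AA U ∅).card : ℝ) := by exact_mod_cast AA_pos hU
  have h3 := cn_ratio (q := md U) (md_pos hU) (R := fun r => Ine r ∧ P fun u => nr u r)
    (R' := Ine) hR (fun n => ine_mod n) (ct_pos hU)
  rw [cls_card hU hP, ct_ine hU] at h3
  convert h3 using 2
  unfold av
  rw [sum_boole]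
  push_cast
  field_simp

end Pool.Agent.J4H77.GF
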