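import Pool.Agent.J4H77.GF.Gr

/-!
# The number of the diagonals as a number of matrices
-/

set_option autoImplicit false

open scoped Classical

namespace Pool.Agent.J4H77.GF

open Finset
open Pool.Agent.R413.SQ (mk Sp In Sol Gd cu)
open Pool.Agent.Y703.CQ (nr)

/-- the condition on the matrix of a set in terms of its split primes -/
noncomputable def Am (f : ℕ → ZMod 2) (S : Finset ℕ) (p q : ℕ) : ZMod 2 :=
  nr p q + if p = q then ∑ s ∈ S, nr p s + f p else 0

theorem gd_ns (f g : ℕ → ZMod 2) (S : Finset ℕ) :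
    Gd (fun p => f p + g p) S ↔ NS (Am f S) g (sp S) := by
  have key : ∀ x : ℕ → ZMod 2, ∀ i ∈ S, mk i = 1 →
      (∑ q ∈ S, nr i q * (cu x q + x i) + (f i + g i) * x i =
        ∑ q ∈ sp S, Am f S i q * x q + g i * x i) := by
    intro x i hiS him
    have hi : i ∈ sp S := mem_sp.2 ⟨hiS, him⟩
    have e1 : ∑ q ∈ S, nr i q * (cu x q + x i) = ∑ q ∈ sp S, nr i q * x q +
        (∑ q ∈ S, nr i q) * x i := by
      rw [sum_mul]
      have e2 : ∑ q ∈ sp S, nr i q * x q = ∑ q ∈ S, nr i q * cu x q := by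
        unfold sp
        rw [sum_filter]
        refine sum_congr rfl fun q _ => ?_
        unfold cu
        split_ifs
        · rfl
        · rw [mul_zero]
      rw [e2, ← sum_add_distrib]
      exact sum_congr rfl fun q _ => by ring
    have e3 : ∑ j ∈ sp S, Am f S i j * x j =
        ∑ q ∈ sp S, nr i q * x q + (∑ s ∈ S, nr i s + f i) * x i := by
      unfold Am
      simp only [add_mul, sum_add_distrib, ite_mul, zero_mul]
      rw [sum_ite_eq, if_pos hi]
    rw [e1, e3]
    ring
  unfold Gd NS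
  refine forall_congr' fun x => ?_
  have h1 : Sol (fun p => f p + g p) S x ↔
      ∀ p ∈ sp S, ∑ q ∈ sp S, Am f S p q * x q + g p * x p = 0 := by
    unfold Sol
    constructor
    · intro h p hp
      obtain ⟨hp1, hp2⟩ := mem_sp.1 hp
      rw [← key x p hp1 hp2]
      exact h p hp1 hp2
    · intro h p hp hm
      have h2 := h p (mem_sp.2 ⟨hp, hm⟩)
      rw [← key x p hp hm] at h2
      exact h2
  rw [h1]
  refine imp_congr_right fun _ => ?_
  constructor
  · intro h p hp
    obtain ⟨hp1, hp2⟩ := mem_sp.1 hp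
    exact h p hp1 hp2
  · intro h p hp hm
    exact h p (mem_sp.2 ⟨hp, hm⟩)

/-- the number of the diagonals for which the matrix is nonsingular -/
noncomputable def Mc {n : ℕ} (G : Matrix (Fin n) (Fin n) (ZMod 2)) : ℕ :=
  (univ.filter fun g : Fin n → ZMod 2 => (G + Matrix.diagonal g).det ≠ 0).card

theorem ns_det {n : ℕ} (e : Fin n → ℕ) (he : Function.Injective e) {U : Finset ℕ}
    (hU : univ.image e = U) (a : ℕ → ℕ → ZMod 2) (g : ℕ → ZMod 2) :
    NS a g U ↔ (Matrix.of (fun i j => if i = j then 0 else a (e i) (e j)) +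
      Matrix.diagonal fun i => a (e i) (e i) + g (e i)).det ≠ 0 := by
  set M : Matrix (Fin n) (Fin n) (ZMod 2) :=
    Matrix.of (fun i j => if i = j then 0 else a (e i) (e j)) +
      Matrix.diagonal fun i => a (e i) (e i) + g (e i) with hM
  have hmv : ∀ (x : ℕ → ZMod 2) (i : Fin n), M.mulVec (fun j => x (e j)) i =
      ∑ q ∈ U, a (e i) q * x q + g (e i) * x (e i) := by
    intro x i
    rw [← hU, sum_image fun _ _ _ _ h => he h]
    unfold Matrix.mulVec dotProduct
    have h1 : ∀ j, M i j * x (e j) = a (e i) (e j) * x (e j) +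
        if i = j then g (e i) * x (e i) else 0 := by
      intro j
      rw [hM]
      simp only [Matrix.add_apply, Matrix.of_apply, Matrix.diagonal_apply]
      by_cases h : i = j
      · subst h
        simp only [if_true]
        ring
      · simp only [if_neg h]
        ring
    rw [sum_congr rfl fun j _ => h1 j, sum_add_distrib, sum_ite_eq, if_pos (mem_univ i)]
  have hmem : ∀ i, e i ∈ U := fun i => hU ▸ mem_image_of_mem e (mem_univ i)
  rw [Ne, ← Matrix.exists_mulVec_eq_zero_iff]
  push Not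
  constructor
  · intro h v hv0 hv
    apply hv0
    obtain ⟨x, hx⟩ : ∃ x : ℕ → ZMod 2, ∀ i, x (e i) = v i :=
      ⟨Function.extend e v 0, fun i => he.extend_apply v 0 i⟩
    have hxv : (fun j => x (e j)) = v := funext hx
    funext i
    rw [← hx i]
    refine h x (fun p hp => ?_) (e i) (hmem i)
    rw [← hU, mem_image] at hp
    obtain ⟨j, -, rfl⟩ := hp
    rw [← hmv x j, hxv, hv]
    rfl
  · intro h x hx p hp
    rw [← hU, mem_image] at hp
    obtain ⟨j, -, rfl⟩ := hp
    by_contra h0
    refine h (fun j => x (e j)) (fun h' => h0 (congrFun h' j)) ?_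
    funext i
    rw [hmv x i, hx (e i) (hmem i)]
    rfl

theorem Nn_eq {n : ℕ} (e : Fin n → ℕ) (he : Function.Injective e) {U : Finset ℕ}
    (hU : univ.image e = U) (a : ℕ → ℕ → ZMod 2) :
    Nn a U = Mc (Matrix.of fun i j => if i = j then 0 else a (e i) (e j)) := by
  have hz : ∀ z : ZMod 2, z ≠ 0 → z = 1 := by decide
  have hmem : ∀ i, e i ∈ U := fun i => hU ▸ mem_image_of_mem e (mem_univ i)
  unfold Nn Mc
  refine card_bij (fun B _ i => a (e i) (e i) + ind B (e i)) (fun B hB => ?_)
    (fun B hB B' hB' h => ?_) fun g hg => ?_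
  · rw [mem_filter]
    exact ⟨mem_univ _, (ns_det e he hU a (ind B)).1 (mem_filter.1 hB).2⟩
  · obtain ⟨h1, -⟩ := mem_filter.1 hB
    obtain ⟨h2, -⟩ := mem_filter.1 hB'
    rw [mem_powerset] at h1 h2
    have h3 : ∀ p ∈ U, ind B p = ind B' p := by
      intro p hp
      rw [← hU, mem_image] at hp
      obtain ⟨i, -, rfl⟩ := hp
      exact add_left_cancel (congrFun h i)
    have h4 : ∀ (B B' : Finset ℕ), B ⊆ U → (∀ p ∈ U, ind B p = ind B' p) → B ⊆ B' := by
      intro B B' hB h p hp
      by_contra hp'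
      have h5 := h p (hB hp)
      unfold ind at h5
      rw [if_pos hp, if_neg hp'] at h5
      exact one_ne_zero h5
    exact subset_antisymm (h4 B B' h1 h3) (h4 B' B h2 fun p hp => (h3 p hp).symm)
  · set B : Finset ℕ := (univ.filter fun i => g i + a (e i) (e i) ≠ 0).image e with hB
    have hind : ∀ i, ind B (e i) = g i + a (e i) (e i) := by
      intro i
      unfold ind
      by_cases h : g i + a (e i) (e i) = 0
      · rw [if_neg, h]
        intro h'
        rw [hB, mem_image] at h'
        obtain ⟨j, hj, hji⟩ := h'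
        have := he hji
        subst this
        exact (mem_filter.1 hj).2 h
      · rw [if_pos (mem_image.2 ⟨i, mem_filter.2 ⟨mem_univ i, h⟩, rfl⟩), hz _ h]
    have hg' : (fun i => a (e i) (e i) + ind B (e i)) = g := by
      funext i
      have h2 : (2 : ZMod 2) = 0 := by decide
      rw [hind]
      linear_combination a (e i) (e i) * h2
    refine ⟨B, mem_filter.2 ⟨mem_powerset.2 ?_, ?_⟩, hg'⟩
    · intro p hp
      obtain ⟨i, -, rfl⟩ := mem_image.1 hp
      exact hmem i
    · rw [ns_det e he hU a (ind B), hg']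
      exact (mem_filter.1 hg).2

/-- the number of the good patterns in terms of the residue symbols of the split primes -/
theorem gd_card {n : ℕ} (e : Fin n → ℕ) (he : Function.Injective e) {S : Finset ℕ}
    (hU : univ.image e = sp S) (f : ℕ → ZMod 2) :
    ((sp S).powerset.filter fun B => Gd (fun u => f u + ind B u) S).card =
      Mc (Matrix.of fun i j => if i = j then 0 else nr (e i) (e j)) := by
  have h1 : ((sp S).powerset.filter fun B => Gd (fun u => f u + ind B u) S).card =
      Nn (Am f S) (sp S) := by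
    unfold Nn
    exact congrArg Finset.card (filter_congr fun B _ => gd_ns f (ind B) S)
  rw [h1, Nn_eq e he hU]
  congr 1
  ext i j
  simp only [Matrix.of_apply]
  by_cases h : i = j
  · rw [if_pos h, if_pos h]
  · rw [if_neg h, if_neg h]
    unfold Am
    rw [if_neg fun h' => h (he h'), add_zero]

/-- the bounds of the number of the diagonals -/
theorem Mc_pos {n : ℕ} (G : Matrix (Fin n) (Fin n) (ZMod 2)) (h0 : ∀ i, G i i = 0) : 0 < Mc G := by
  have h1 : (Matrix.of fun i j : Fin n => if i = j then 0 else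
      (fun p q : ℕ => if h : p < n ∧ q < n then G ⟨p, h.1⟩ ⟨q, h.2⟩ else 0) (i : ℕ) (j : ℕ)) = G := by
    ext i j
    simp only [Matrix.of_apply]
    by_cases h : i = j
    · rw [if_pos h, h, h0]
    · rw [if_neg h, dif_pos ⟨i.2, j.2⟩]
  have h2 := Nn_eq (fun i : Fin n => (i : ℕ)) Fin.val_injective (U := univ.image fun i : Fin n => (i : ℕ))
    rfl (fun p q : ℕ => if h : p < n ∧ q < n then G ⟨p, h.1⟩ ⟨q, h.2⟩ else 0)
  rw [h1] at h2
  rw [← h2]
  exact Nn_pos _ _

theorem Mc_le {n : ℕ} (G : Matrix (Fin n) (Fin n) (ZMod 2)) (h0 : ∀ i, G i i = 0)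
    (hs : G.IsSymm) : Mc G ≤ sj n := by
  have h1 : (Matrix.of fun i j : Fin n => if i = j then 0 else
      (fun p q : ℕ => if h : p < n ∧ q < n then G ⟨p, h.1⟩ ⟨q, h.2⟩ else 0) (i : ℕ) (j : ℕ)) = G := by
    ext i j
    simp only [Matrix.of_apply]
    by_cases h : i = j
    · rw [if_pos h, h, h0]
    · rw [if_neg h, dif_pos ⟨i.2, j.2⟩]
  have h2 := Nn_eq (fun i : Fin n => (i : ℕ)) Fin.val_injective (U := univ.image fun i : Fin n => (i : ℕ))
    rfl (fun p q : ℕ => if h : p < n ∧ q < n then G ⟨p, h.1⟩ ⟨q, h.2⟩ else 0)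
  rw [h1] at h2
  rw [← h2]
  refine Nn_le n _ _ ?_ fun p _ q _ => ?_
  · rw [card_image_of_injective _ Fin.val_injective, card_univ, Fintype.card_fin]
  · by_cases h : p < n ∧ q < n
    · rw [dif_pos h, dif_pos ⟨h.2, h.1⟩]
      exact hs.apply _ _
    · rw [dif_neg h, dif_neg fun h' => h ⟨h'.2, h'.1⟩]

end Pool.Agent.J4H77.GF
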