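import Pool.Agent.J4H77.GF.Gl
import Pool.Agent.R413.SQ.BOX
import Pool.Agent.J4H77.GF.Cnt

/-!
# The extreme values and the realization of the residue matrices
-/

set_option autoImplicit false

open scoped Classical

namespace Pool.Agent.J4H77.GF

open Finset
open Pool.Agent.R413.SQ (mk Sp In Sol Gd cu)
open Pool.Agent.Y703.CQ (nr)

/-- only the entries off the diagonal matter -/
theorem Nn_diag {a a' : ℕ → ℕ → ZMod 2} {U : Finset ℕ}
    (h : ∀ p ∈ U, ∀ q ∈ U, p ≠ q → a p q = a' p q) : Nn a U = Nn a' U := by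
  set e := U.orderEmbOfFin rfl with he
  have h1 : univ.image e = U := by
    ext p
    rw [mem_image]
    constructor
    · rintro ⟨i, -, rfl⟩
      exact orderEmbOfFin_mem U rfl i
    · intro hp
      have h2 : p ∈ Set.range e := by
        rw [he, range_orderEmbOfFin]
        exact hp
      obtain ⟨i, hi⟩ := h2
      exact ⟨i, mem_univ i, hi⟩
  rw [Nn_eq e e.injective h1, Nn_eq e e.injective h1]
  congr 1
  ext i j
  simp only [Matrix.of_apply]
  by_cases hij : i = j
  · rw [if_pos hij, if_pos hij]
  · rw [if_neg hij, if_neg hij]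
    exact h _ (orderEmbOfFin_mem U rfl i) _ (orderEmbOfFin_mem U rfl j) fun h' =>
      hij (e.injective h')

/-- the matrix of the path -/
def pth (p q : ℕ) : ZMod 2 := if p + 1 = q ∨ q + 1 = p then 1 else 0

theorem Nn_pth : ∀ n : ℕ, Nn pth (range n) = sj n
  | 0 => by
    have h1 := Nn_pos pth (range 0)
    have h2 := Nn_le 0 (range 0) pth (by simp) (by simp)
    have h3 : sj 0 = 1 := rfl
    omega
  | 1 => by
    have h1 := Nn_pos pth (range 1)
    have h2 := Nn_le 1 (range 1) pth (by simp) (by
      intro p hp q hq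
      simp only [mem_range, Nat.lt_one_iff] at hp hq
      rw [hp, hq])
    have h3 : sj 1 = 1 := rfl
    omega
  | (n + 2) => by
    have e1 : range (n + 2) = insert (n + 1) (insert n (range n)) := by
      rw [range_add_one, range_add_one]
    have hi : n ∉ range n := notMem_range_self
    have hu : n + 1 ∉ insert n (range n) := by
      rw [← range_add_one]
      exact notMem_range_self
    have h0 : pth (n + 1) (n + 1) = 0 := by
      unfold pth
      rw [if_neg (by omega)]
    have hz : ∀ p, p < n → pth p (n + 1) = 0 := by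
      intro p hp
      unfold pth
      rw [if_neg (by omega)]
    have hz' : ∀ p, p < n → pth (n + 1) p = 0 := by
      intro p hp
      unfold pth
      rw [if_neg (by omega)]
    have c1 : Ce pth (n + 1) (insert n (range n)) 1 = Nn pth (insert n (range n)) := by
      rw [Ce_one hu (by rw [h0, zero_add])]
      refine Nn_diag fun p hp q hq hpq => ?_
      rw [mem_insert, mem_range] at hp hq
      rcases hp with rfl | hp
      · have hq' : q < p := by omega
        rw [hz' q hq', mul_zero, add_zero]
      · rw [hz p hp, zero_mul, add_zero]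
    have c0 : Ce pth (n + 1) (insert n (range n)) 0 = Nn pth (range n) + Nn pth (range n) := by
      rw [Ce_two hu hi (by rw [h0, add_zero]) (by unfold pth; rw [if_pos (by omega)])
        (by unfold pth; rw [if_pos (by omega)])]
      congr 1
      · refine Nn_diag fun p hp q hq hpq => ?_
        rw [mem_range] at hp hq
        rw [hz p hp, hz' q hq, zero_mul, mul_zero, add_zero, add_zero]
      · refine Nn_diag fun p hp q hq hpq => ?_
        rw [mem_range] at hp hq
        rw [hz p hp, hz' q hq, zero_mul, mul_zero, add_zero, add_zero]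
    rw [e1, Nn_ins hu, c0, c1, ← range_add_one, Nn_pth n, Nn_pth (n + 1)]
    have h3 : sj (n + 2) = sj (n + 1) + 2 * sj n := rfl
    omega

/-- the matrix of the path -/
def pathM (n : ℕ) : Matrix (Fin n) (Fin n) (ZMod 2) :=
  Matrix.of fun i j => if (i : ℕ) + 1 = j ∨ (j : ℕ) + 1 = i then 1 else 0

theorem Mc_path (n : ℕ) : Mc (pathM n) = sj n := by
  have h1 := Nn_eq (fun i : Fin n => (i : ℕ)) Fin.val_injective (U := range n) (by
    ext p
    simp only [mem_image, mem_univ, true_and, mem_range]
    constructor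
    · rintro ⟨i, rfl⟩
      exact i.2
    · intro hp
      exact ⟨⟨p, hp⟩, rfl⟩) pth
  rw [Nn_pth] at h1
  rw [h1]
  congr 1
  ext i j
  unfold pathM pth
  simp only [Matrix.of_apply]
  by_cases h : i = j
  · rw [if_pos h, if_neg (by subst h; omega)]
  · rw [if_neg h]

theorem Mc_zero (n : ℕ) : Mc (0 : Matrix (Fin n) (Fin n) (ZMod 2)) = 1 := by
  have hz : ∀ z : ZMod 2, z ≠ 0 → z = 1 := by decide
  unfold Mc
  rw [card_eq_one]
  refine ⟨fun _ => 1, ?_⟩
  ext g
  rw [mem_filter, mem_singleton, zero_add, Matrix.det_diagonal, prod_ne_zero_iff]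
  constructor
  · rintro ⟨-, h⟩
    funext i
    exact hz _ (h i (mem_univ i))
  · rintro rfl
    exact ⟨mem_univ _, fun i _ => one_ne_zero⟩

/-- an edge gives at least three diagonals -/
theorem Nn_three {a : ℕ → ℕ → ZMod 2} {U : Finset ℕ} (hs : ∀ p ∈ U, ∀ q ∈ U, a p q = a q p)
    {u i : ℕ} (hu : u ∈ U) (hi : i ∈ U) (hui : u ≠ i) (h1 : a u i ≠ 0) : 3 ≤ Nn a U := by
  have hz : ∀ z : ZMod 2, z ≠ 0 → z = 1 := by decide
  obtain ⟨V, hV, rfl⟩ : ∃ V, u ∉ V ∧ insert u V = U :=
    ⟨U.erase u, notMem_erase u U, insert_erase hu⟩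
  have hiV : i ∈ V := (mem_insert.1 hi).resolve_left (Ne.symm hui)
  obtain ⟨W, hW, rfl⟩ : ∃ W, i ∉ W ∧ insert i W = V :=
    ⟨V.erase i, notMem_erase i V, insert_erase hiV⟩
  have hui1 : a u i = 1 := hz _ h1
  have hiu1 : a i u = 1 := by rw [hs i hi u hu]; exact hui1
  have c1 : ∀ e : ZMod 2, a u u + e = 1 → 1 ≤ Ce a u (insert i W) e := by
    intro e he
    rw [Ce_one hV he]
    exact Nn_pos _ _
  have c0 : ∀ e : ZMod 2, a u u + e = 0 → 2 ≤ Ce a u (insert i W) e := by
    intro e he
    rw [Ce_two hV hW he hui1 hiu1]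
    have h3 := Nn_pos (fun p q => a p q + a p u * (a i q + (a i i + 0) * a u q) + a p i * a u q) W
    have h4 := Nn_pos (fun p q => a p q + a p u * (a i q + (a i i + 1) * a u q) + a p i * a u q) W
    omega
  rw [Nn_ins hV]
  by_cases h0 : a u u = 0
  · have d1 := c1 1 (by rw [h0, zero_add])
    have d0 := c0 0 (by rw [h0, zero_add])
    omega
  · have h1 : a u u = 1 := hz _ h0
    have d1 := c1 0 (by rw [h1, add_zero])
    have d0 := c0 1 (by rw [h1]; decide)
    omega

theorem Mc_three {n : ℕ} (G : Matrix (Fin n) (Fin n) (ZMod 2)) (h0 : ∀ i, G i i = 0)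
    (hs : G.IsSymm) (hG : G ≠ 0) : 3 ≤ Mc G := by
  have h1 : (Matrix.of fun i j : Fin n => if i = j then 0 else
      (fun p q : ℕ => if h : p < n ∧ q < n then G ⟨p, h.1⟩ ⟨q, h.2⟩ else 0) (i : ℕ) (j : ℕ)) = G := by
    ext i j
    simp only [Matrix.of_apply]
    by_cases h : i = j
    · rw [if_pos h, h, h0]
    · rw [if_neg h, dif_pos ⟨i.2, j.2⟩]
  have h2 := Nn_eq (fun i : Fin n => (i : ℕ)) Fin.val_injective (U := univ.image fun i : Fin n => (i : ℕ))
    rfl (fun p q : ℕ => if h : p < n ∧ q < n then G ⟨p, h.1⟩ ⟨q, h.2⟩ else 0)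
  rw [h1] at h2
  rw [← h2]
  obtain ⟨i, j, hij⟩ : ∃ i j, G i j ≠ 0 := by
    by_contra hcon
    push Not at hcon
    exact hG (by ext i j; exact hcon i j)
  have hne : i ≠ j := by
    rintro rfl
    exact hij (h0 i)
  refine Nn_three (fun p _ q _ => ?_) (u := i) (i := j) (mem_image_of_mem _ (mem_univ i))
    (mem_image_of_mem _ (mem_univ j)) (fun h => hne (Fin.val_injective h)) ?_
  · by_cases h : p < n ∧ q < n
    · rw [dif_pos h, dif_pos ⟨h.2, h.1⟩]
      exact hs.apply _ _
    · rw [dif_neg h, dif_neg fun h' => h ⟨h'.2, h'.1⟩]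
  · rw [dif_pos ⟨i.2, j.2⟩]
    exact hij

theorem nr_symm' {p q : ℕ} (hp : p.Prime) (hp1 : p % 4 = 1) (hq : q.Prime) (hq1 : q % 4 = 1) :
    nr p q = nr q p :=
  Pool.Agent.R413.SQ.BOX.nr_symm hp hp1 hq (by rintro rfl; norm_num at hq1)

/-- **every symmetric matrix is the matrix of the residue symbols of primes** -/
theorem realize (X : ℕ) : ∀ (n : ℕ) (G : Matrix (Fin n) (Fin n) (ZMod 2)), G.IsSymm →
    ∃ e : Fin n → ℕ, StrictMono e ∧ (∀ i, (e i).Prime ∧ X < e i ∧ e i % 28 = 1) ∧
      ∀ i j, i ≠ j → nr (e i) (e j) = G i j := by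
  have hz : ∀ z : ZMod 2, z ≠ 0 → z = 1 := by decide
  intro n
  induction n with
  | zero => exact fun G _ => ⟨fun i => i.elim0, fun i => i.elim0, fun i => i.elim0, fun i => i.elim0⟩
  | succ n ih =>
    intro G hG
    obtain ⟨e, he, hp, hr⟩ := ih (Matrix.of fun i j => G i.castSucc j.castSucc)
      (Matrix.IsSymm.ext fun i j => hG.apply _ _)
    set U : Finset ℕ := univ.image e with hU
    have hSU : SpU U := by
      intro u hu
      obtain ⟨i, -, rfl⟩ := mem_image.1 hu
      obtain ⟨h1, -, h2⟩ := hp i
      refine ⟨h1, by omega, ?_⟩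
      unfold R413.SQ.mk
      rw [if_pos (by omega)]
    set B : Finset ℕ := (univ.filter fun i => G i.castSucc (Fin.last n) ≠ 0).image e with hB
    have hBU : B ⊆ U := image_subset_image (filter_subset _ _)
    have hind : ∀ i, ind B (e i) = G i.castSucc (Fin.last n) := by
      intro i
      unfold ind
      by_cases h : G i.castSucc (Fin.last n) = 0
      · rw [if_neg, h]
        intro h'
        obtain ⟨j, hj, hji⟩ := mem_image.1 h'
        have := he.injective hji
        subst this
        exact (mem_filter.1 hj).2 h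
      · rw [if_pos (mem_image.2 ⟨i, mem_filter.2 ⟨mem_univ i, h⟩, rfl⟩), hz _ h]
    obtain ⟨g, hg1, hg2⟩ := exists_g hSU hBU
    have h28 : Nat.Coprime g 28 := by
      unfold Nat.Coprime
      rw [Nat.gcd_comm, Nat.gcd_rec, hg1]
      norm_num
    have hgc : Nat.Coprime g (md U) := cop_md h28 hSU fun u hu => (hg2 u hu).1
    haveI : NeZero (md U) := ⟨(md_pos hSU).ne'⟩
    obtain ⟨p, hpg, hpp, hpm⟩ := Nat.forall_exists_prime_gt_and_eq_mod (q := md U)
      (a := (g : ZMod (md U))) ((ZMod.isUnit_iff_coprime g (md U)).2 hgc) (max X (U.sup id))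
    have hmod : p ≡ g [MOD md U] := (ZMod.natCast_eq_natCast_iff _ _ _).1 hpm
    have hX : X < p := lt_of_le_of_lt (le_max_left _ _) hpg
    have hlt : ∀ i, e i < p := fun i => lt_of_le_of_lt
      (Finset.le_sup (f := id) (mem_image_of_mem e (mem_univ i))) (lt_of_le_of_lt (le_max_right _ _) hpg)
    have hp28 : p % 28 = 1 := by
      have h1 : p ≡ g [MOD 28] := hmod.of_dvd (dvd_mul_right _ _)
      unfold Nat.ModEq at h1
      rw [h1, hg1]
    have hnr : ∀ i, nr (e i) p = G i.castSucc (Fin.last n) := by
      intro i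
      have hu : e i ∈ U := mem_image_of_mem e (mem_univ i)
      have h1 : p ≡ g [MOD e i] := hmod.of_dvd (dvd_md hu)
      rw [← nr_mod (dvd_refl (e i)) p, h1, nr_mod (dvd_refl (e i)), (hg2 _ hu).2, hind]
    refine ⟨Fin.snoc e p, ?_, fun i => ?_, fun i j hij => ?_⟩
    · intro i j hij
      induction j using Fin.lastCases with
      | last =>
        induction i using Fin.lastCases with
        | last => exact absurd hij (lt_irrefl _)
        | cast i =>
          rw [Fin.snoc_castSucc, Fin.snoc_last]
          exact hlt i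
      | cast j =>
        induction i using Fin.lastCases with
        | last => exact absurd hij (not_lt.2 (Fin.le_last _))
        | cast i =>
          rw [Fin.snoc_castSucc, Fin.snoc_castSucc]
          exact he (by simpa using hij)
    · induction i using Fin.lastCases with
      | last =>
        rw [Fin.snoc_last]
        exact ⟨hpp, hX, hp28⟩
      | cast i =>
        rw [Fin.snoc_castSucc]
        exact hp i
    · induction j using Fin.lastCases with
      | last =>
        induction i using Fin.lastCases with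
        | last => exact absurd rfl hij
        | cast i =>
          rw [Fin.snoc_castSucc, Fin.snoc_last]
          exact hnr i
      | cast j =>
        induction i using Fin.lastCases with
        | last =>
          rw [Fin.snoc_castSucc, Fin.snoc_last, nr_symm' hpp (by omega) (hp j).1
            (by have := (hp j).2.2; omega), hnr j]
          exact hG.apply _ _
        | cast i =>
          rw [Fin.snoc_castSucc, Fin.snoc_castSucc]
          exact hr i j fun h => hij (by rw [h])

end Pool.Agent.J4H77.GF
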