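import Pool.Agent.J4H77.GF.Alg

/-!
# Counting the diagonals which make a symmetric matrix over `𝔽₂` nonsingular
-/

set_option autoImplicit false

open scoped Classical

namespace Pool.Agent.J4H77.GF

open Finset

/-- the matrix `a + diag g` on `U` has a trivial kernel -/
def NS (a : ℕ → ℕ → ZMod 2) (g : ℕ → ZMod 2) (U : Finset ℕ) : Prop :=
  ∀ x : ℕ → ZMod 2, (∀ p ∈ U, ∑ q ∈ U, a p q * x q + g p * x p = 0) → ∀ p ∈ U, x p = 0

theorem ns_congr {a a' : ℕ → ℕ → ZMod 2} {g g' : ℕ → ZMod 2} {U : Finset ℕ}
    (ha : ∀ p ∈ U, ∀ q ∈ U, a p q = a' p q) (hg : ∀ p ∈ U, g p = g' p) :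
    NS a g U ↔ NS a' g' U := by
  unfold NS
  refine forall_congr' fun x => imp_congr_left (forall_congr' fun p => forall_congr' fun hp => ?_)
  rw [hg p hp, sum_congr rfl fun q hq => by rw [ha p hp q hq]]

/-- elimination of a vertex with the diagonal entry `1` -/
theorem piv1 {a : ℕ → ℕ → ZMod 2} {g : ℕ → ZMod 2} {u : ℕ} {U : Finset ℕ} (hu : u ∉ U)
    (h : a u u + g u = 1) :
    NS a g (insert u U) ↔ NS (fun p q => a p q + a p u * a u q) g U := by
  have h2 : (2 : ZMod 2) = 0 := by decide
  constructor
  · intro hN x hx p hp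
    have hyU : ∀ q ∈ U, (fun q => if q = u then ∑ r ∈ U, a u r * x r else x q) q = x q :=
      fun q hq => if_neg (fun h' : q = u => hu (h' ▸ hq))
    have hyu : (fun q => if q = u then ∑ r ∈ U, a u r * x r else x q) u = ∑ r ∈ U, a u r * x r :=
      if_pos rfl
    generalize (fun q => if q = u then ∑ r ∈ U, a u r * x r else x q) = y at hyU hyu
    have hs : ∀ i, ∑ q ∈ U, a i q * y q = ∑ q ∈ U, a i q * x q :=
      fun i => sum_congr rfl fun q hq => by rw [hyU q hq]
    have h1 := hN y (fun i hi => ?_) p (mem_insert_of_mem hp)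
    · rwa [hyU p hp] at h1
    · rw [sum_insert hu, hs]
      rcases mem_insert.1 hi with rfl | hi
      · rw [hyu]
        linear_combination (∑ r ∈ U, a i r * x r) * h + (∑ r ∈ U, a i r * x r) * h2
      · have h3 := hx i hi
        rw [hyu, hyU i hi]
        simp only [add_mul, sum_add_distrib, mul_assoc, ← mul_sum] at h3
        linear_combination h3
  · intro hN x hx
    have h1 := hx u (mem_insert_self u U)
    rw [sum_insert hu] at h1
    have hxu : x u = ∑ r ∈ U, a u r * x r := by
      linear_combination h1 - x u * h - (∑ r ∈ U, a u r * x r) * h2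
    have key : ∀ i ∈ U, x i = 0 := by
      refine hN x fun i hi => ?_
      have h3 := hx i (mem_insert_of_mem hi)
      rw [sum_insert hu, hxu] at h3
      simp only [add_mul, sum_add_distrib, mul_assoc, ← mul_sum]
      linear_combination h3
    intro i hi
    rcases mem_insert.1 hi with rfl | hi
    · rw [hxu]
      exact sum_eq_zero fun q hq => by rw [key q hq, mul_zero]
    · exact key i hi

/-- elimination of an edge whose first vertex has the diagonal entry `0` -/
theorem piv2 {a : ℕ → ℕ → ZMod 2} {g : ℕ → ZMod 2} {u i : ℕ} {U : Finset ℕ}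
    (hu : u ∉ insert i U) (hi : i ∉ U) (h : a u u + g u = 0) (h1 : a u i = 1) (h1' : a i u = 1) :
    NS a g (insert u (insert i U)) ↔ NS (fun p q => a p q + a p u * (a i q + (a i i + g i) * a u q) +
      a p i * a u q) g U := by
  have h2 : (2 : ZMod 2) = 0 := by decide
  have hui : u ≠ i := fun h' => hu (h' ▸ mem_insert_self i U)
  have huU : u ∉ U := fun h' => hu (mem_insert_of_mem h')
  constructor
  · intro hN x hx p hp
    obtain ⟨y, hyu, hyi, hyU⟩ : ∃ y : ℕ → ZMod 2,
        y u = ∑ r ∈ U, a i r * x r + (a i i + g i) * ∑ r ∈ U, a u r * x r ∧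
        y i = ∑ r ∈ U, a u r * x r ∧ ∀ q ∈ U, y q = x q := by
      refine ⟨fun q => if q = u then ∑ r ∈ U, a i r * x r + (a i i + g i) * ∑ r ∈ U, a u r * x r
        else if q = i then ∑ r ∈ U, a u r * x r else x q, if_pos rfl, ?_, fun q hq => ?_⟩
      · beta_reduce
        rw [if_neg (Ne.symm hui), if_pos rfl]
      · beta_reduce
        rw [if_neg (fun h' : q = u => huU (h' ▸ hq)), if_neg (fun h' : q = i => hi (h' ▸ hq))]
    have hs : ∀ j, ∑ q ∈ U, a j q * y q = ∑ q ∈ U, a j q * x q :=
      fun j => sum_congr rfl fun q hq => by rw [hyU q hq]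
    have h4 := hN y (fun j hj => ?_) p (mem_insert_of_mem (mem_insert_of_mem hp))
    · rwa [hyU p hp] at h4
    · rw [sum_insert hu, sum_insert hi, hs]
      rcases mem_insert.1 hj with rfl | hj
      · rw [h1, hyi]
        linear_combination y j * h + (∑ r ∈ U, a j r * x r) * h2
      · rcases mem_insert.1 hj with rfl | hj
        · rw [h1', hyu, hyi]
          linear_combination (∑ r ∈ U, a j r * x r) * h2 +
            (a j j + g j) * (∑ r ∈ U, a u r * x r) * h2
        · have h3 := hx j hj
          rw [hyu, hyi, hyU j hj]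
          simp only [add_mul, mul_add, sum_add_distrib, mul_assoc, ← mul_sum] at h3
          linear_combination h3
  · intro hN x hx
    have e1 := hx u (mem_insert_self u _)
    have e2 := hx i (mem_insert_of_mem (mem_insert_self i _))
    rw [sum_insert hu, sum_insert hi] at e1 e2
    rw [h1] at e1
    rw [h1'] at e2
    have hxi : x i = ∑ r ∈ U, a u r * x r := by
      linear_combination e1 - x u * h - (∑ r ∈ U, a u r * x r) * h2
    have hxu : x u = ∑ r ∈ U, a i r * x r + (a i i + g i) * ∑ r ∈ U, a u r * x r := by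
      linear_combination e2 - (a i i + g i) * hxi - (∑ r ∈ U, a i r * x r) * h2 -
        (a i i + g i) * (∑ r ∈ U, a u r * x r) * h2
    have key : ∀ j ∈ U, x j = 0 := by
      refine hN x fun j hj => ?_
      have h3 := hx j (mem_insert_of_mem (mem_insert_of_mem hj))
      rw [sum_insert hu, sum_insert hi, hxu, hxi] at h3
      simp only [add_mul, mul_add, sum_add_distrib, mul_assoc, ← mul_sum]
      linear_combination h3
    have k1 : ∀ j, ∑ r ∈ U, a j r * x r = 0 := fun j =>
      sum_eq_zero fun q hq => by rw [key q hq, mul_zero]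
    intro j hj
    rcases mem_insert.1 hj with rfl | hj
    · rw [hxu, k1, k1, mul_zero, add_zero]
    · rcases mem_insert.1 hj with rfl | hj
      · rw [hxi, k1]
      · exact key j hj

/-- an isolated vertex with the diagonal entry `0` -/
theorem piv0 {a : ℕ → ℕ → ZMod 2} {g : ℕ → ZMod 2} {u : ℕ} {U : Finset ℕ} (hu : u ∉ U)
    (h : a u u + g u = 0) (h0 : ∀ q ∈ U, a q u = 0) : ¬ NS a g (insert u U) := by
  intro hN
  have h1 := hN (fun q => if q = u then 1 else 0) (fun p hp => ?_) u (mem_insert_self u U)
  · simp at h1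
  · have e1 : ∑ q ∈ insert u U, a p q * (if q = u then (1 : ZMod 2) else 0) = a p u := by
      simp
    rw [e1]
    rcases mem_insert.1 hp with rfl | hp
    · beta_reduce
      rw [if_pos rfl, mul_one, h]
    · beta_reduce
      rw [if_neg (fun h' : p = u => hu (h' ▸ hp)), mul_zero, add_zero, h0 p hp]

/-- the number of the diagonals -/
noncomputable def Nn (a : ℕ → ℕ → ZMod 2) (U : Finset ℕ) : ℕ :=
  (U.powerset.filter fun B => NS a (ind B) U).card

theorem Nn_pos (a : ℕ → ℕ → ZMod 2) (U : Finset ℕ) : 0 < Nn a U := by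
  obtain ⟨B, hB, h⟩ := exists_diag a U
  exact card_pos.2 ⟨B, mem_filter.2 ⟨mem_powerset.2 hB, h⟩⟩

/-- the number of the diagonals with a given value at `u` -/
noncomputable def Ce (a : ℕ → ℕ → ZMod 2) (u : ℕ) (U : Finset ℕ) (e : ZMod 2) : ℕ :=
  (U.powerset.filter fun B => NS a (fun p => if p = u then e else ind B p) (insert u U)).card

theorem ind_ins {u : ℕ} {B : Finset ℕ} :
    ind (insert u B) = fun p => if p = u then 1 else ind B p := by
  funext p
  unfold ind
  by_cases h : p = u
  · rw [if_pos h, if_pos (h ▸ mem_insert_self u B)]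
  · rw [if_neg h]
    by_cases hb : p ∈ B
    · rw [if_pos hb, if_pos (mem_insert_of_mem hb)]
    · rw [if_neg hb, if_neg fun h' => (mem_insert.1 h').elim h hb]

theorem ind_not {u : ℕ} {B : Finset ℕ} (hu : u ∉ B) :
    ind B = fun p => if p = u then 0 else ind B p := by
  funext p
  by_cases h : p = u
  · rw [if_pos h]
    unfold ind
    rw [if_neg (h ▸ hu)]
  · rw [if_neg h]

/-- a sum over the subsets of `insert u U` -/
theorem cnt_ins {u : ℕ} {U : Finset ℕ} (hu : u ∉ U) (Q : (ℕ → ZMod 2) → Prop) :
    ((insert u U).powerset.filter fun B => Q (ind B)).card =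
      (U.powerset.filter fun B => Q fun p => if p = u then 0 else ind B p).card +
      (U.powerset.filter fun B => Q fun p => if p = u then 1 else ind B p).card := by
  rw [card_filter, card_filter, card_filter, sum_powerset_insert hu]
  congr 1
  · refine sum_congr rfl fun B hB => ?_
    rw [← ind_not fun h' => hu (mem_powerset.1 hB h')]
  · refine sum_congr rfl fun B _ => ?_
    rw [ind_ins]

theorem Nn_ins {a : ℕ → ℕ → ZMod 2} {u : ℕ} {U : Finset ℕ} (hu : u ∉ U) :
    Nn a (insert u U) = Ce a u U 0 + Ce a u U 1 :=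
  cnt_ins hu fun g => NS a g (insert u U)

theorem Ce_one {a : ℕ → ℕ → ZMod 2} {u : ℕ} {U : Finset ℕ} (hu : u ∉ U) {e : ZMod 2}
    (h : a u u + e = 1) : Ce a u U e = Nn (fun p q => a p q + a p u * a u q) U := by
  unfold Ce Nn
  refine congrArg Finset.card (filter_congr fun B _ => ?_)
  rw [piv1 hu (by rw [if_pos rfl]; exact h)]
  exact ns_congr (fun _ _ _ _ => rfl) fun p hp => if_neg (fun h' : p = u => hu (h' ▸ hp))

theorem Ce_zero {a : ℕ → ℕ → ZMod 2} {u : ℕ} {U : Finset ℕ} (hu : u ∉ U) {e : ZMod 2}
    (h : a u u + e = 0) (h0 : ∀ q ∈ U, a q u = 0) : Ce a u U e = 0 := by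
  unfold Ce
  rw [card_eq_zero, filter_eq_empty_iff]
  intro B _
  exact piv0 hu (by rw [if_pos rfl]; exact h) h0

theorem Ce_two {a : ℕ → ℕ → ZMod 2} {u i : ℕ} {U : Finset ℕ} (hu : u ∉ insert i U) (hi : i ∉ U)
    {e : ZMod 2} (h : a u u + e = 0) (h1 : a u i = 1) (h1' : a i u = 1) :
    Ce a u (insert i U) e =
      Nn (fun p q => a p q + a p u * (a i q + (a i i + 0) * a u q) + a p i * a u q) U +
      Nn (fun p q => a p q + a p u * (a i q + (a i i + 1) * a u q) + a p i * a u q) U := by
  have hui : u ≠ i := fun h' => hu (h' ▸ mem_insert_self i U)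
  have huU : u ∉ U := fun h' => hu (mem_insert_of_mem h')
  unfold Ce
  rw [cnt_ins hi fun g => NS a (fun p => if p = u then e else g p) (insert u (insert i U))]
  unfold Nn
  congr 1
  · refine congrArg Finset.card (filter_congr fun B _ => ?_)
    rw [piv2 hu hi (by rw [if_pos rfl]; exact h) h1 h1']
    beta_reduce
    rw [if_neg (Ne.symm hui), if_pos rfl]
    exact ns_congr (fun _ _ _ _ => rfl) fun p hp => by
      rw [if_neg (fun h' : p = u => huU (h' ▸ hp)), if_neg (fun h' : p = i => hi (h' ▸ hp))]
  · refine congrArg Finset.card (filter_congr fun B _ => ?_)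
    rw [piv2 hu hi (by rw [if_pos rfl]; exact h) h1 h1']
    beta_reduce
    rw [if_neg (Ne.symm hui), if_pos rfl]
    exact ns_congr (fun _ _ _ _ => rfl) fun p hp => by
      rw [if_neg (fun h' : p = u => huU (h' ▸ hp)), if_neg (fun h' : p = i => hi (h' ▸ hp))]

/-- the Jacobsthal numbers `(2^(n+1) + (-1)^n) / 3` -/
def sj : ℕ → ℕ
  | 0 => 1
  | 1 => 1
  | (n + 2) => sj (n + 1) + 2 * sj n

theorem sj_real (n : ℕ) : (sj n : ℝ) / 2 ^ n = (2 + (-1 / 2) ^ n) / 3 := by
  have key : ∀ n : ℕ, (sj n : ℝ) = (2 * 2 ^ n + (-1) ^ n) / 3 ∧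
      (sj (n + 1) : ℝ) = (2 * 2 ^ (n + 1) + (-1) ^ (n + 1)) / 3 := by
    intro n
    induction n with
    | zero => constructor <;> norm_num [sj]
    | succ n ih =>
      refine ⟨ih.2, ?_⟩
      have h1 : sj (n + 1 + 1) = sj (n + 1) + 2 * sj n := rfl
      rw [h1]
      push_cast
      rw [ih.1, ih.2]
      ring
  rw [(key n).1]
  have h2 : (2 : ℝ) ^ n ≠ 0 := by positivity
  rw [div_pow]
  field_simp

/-- **the upper bound** -/
theorem Nn_le : ∀ (n : ℕ) (U : Finset ℕ) (a : ℕ → ℕ → ZMod 2), U.card = n →
    (∀ p ∈ U, ∀ q ∈ U, a p q = a q p) → Nn a U ≤ sj n := by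
  have hz : ∀ z : ZMod 2, z ≠ 0 → z = 1 := by decide
  intro n
  induction n using Nat.strong_induction_on with
  | _ n ih =>
    intro U a hc hs
    rcases U.eq_empty_or_nonempty with rfl | ⟨u, hu⟩
    · rw [card_empty] at hc
      subst hc
      unfold Nn
      refine (card_filter_le _ _).trans ?_
      simp [sj]
    · obtain ⟨V, hV, rfl⟩ : ∃ V, u ∉ V ∧ insert u V = U :=
        ⟨U.erase u, notMem_erase u U, insert_erase hu⟩
      rw [card_insert_of_notMem hV] at hc
      -- the two values of the diagonal
      have c1 : ∀ e : ZMod 2, a u u + e = 1 → Ce a u V e ≤ sj V.card := by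
        intro e he
        rw [Ce_one hV he]
        refine ih V.card (by omega) V _ rfl fun p hp q hq => ?_
        rw [hs p (mem_insert_of_mem hp) q (mem_insert_of_mem hq),
          hs p (mem_insert_of_mem hp) u (mem_insert_self u V),
          hs u (mem_insert_self u V) q (mem_insert_of_mem hq)]
        ring
      have c0 : ∀ e : ZMod 2, a u u + e = 0 → sj V.card + Ce a u V e ≤ sj n := by
        intro e he
        by_cases h0 : ∀ q ∈ V, a q u = 0
        · rw [Ce_zero hV he h0, add_zero, ← hc]
          rcases Nat.eq_zero_or_pos V.card with h1 | h1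
          · rw [h1]
            simp [sj]
          · obtain ⟨m, hm⟩ : ∃ m, V.card = m + 1 := ⟨V.card - 1, by omega⟩
            rw [hm]
            have h2 : sj (m + 1 + 1) = sj (m + 1) + 2 * sj m := rfl
            omega
        · push Not at h0
          obtain ⟨i, hiV, hi0⟩ := h0
          obtain ⟨W, hW, rfl⟩ : ∃ W, i ∉ W ∧ insert i W = V :=
            ⟨V.erase i, notMem_erase i V, insert_erase hiV⟩
          have hiu : a i u = 1 := hz _ hi0
          have hui : a u i = 1 := by
            rw [hs u (mem_insert_self u _) i (mem_insert_of_mem hiV)]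
            exact hiu
          rw [Ce_two hV hW he hui hiu]
          rw [card_insert_of_notMem hW] at hc ⊢
          have hb : ∀ c : ZMod 2, Nn (fun p q => a p q + a p u * (a i q + (a i i + c) * a u q) +
              a p i * a u q) W ≤ sj W.card := by
            intro c
            refine ih W.card (by omega) W _ rfl fun p hp q hq => ?_
            have mp : p ∈ insert u (insert i W) := mem_insert_of_mem (mem_insert_of_mem hp)
            have mq : q ∈ insert u (insert i W) := mem_insert_of_mem (mem_insert_of_mem hq)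
            have mi : i ∈ insert u (insert i W) := mem_insert_of_mem hiV
            have mu : u ∈ insert u (insert i W) := mem_insert_self u _
            rw [hs p mp q mq, hs p mp u mu, hs i mi q mq, hs u mu q mq, hs p mp i mi]
            ring
          have h3 := hb 0
          have h4 := hb 1
          rw [← hc]
          have h2 : sj (W.card + 1 + 1) = sj (W.card + 1) + 2 * sj W.card := rfl
          omega
      rw [Nn_ins hV]
      by_cases h0 : a u u = 0
      · have d1 := c1 1 (by rw [h0, zero_add])
        have d0 := c0 0 (by rw [h0, zero_add])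
        omega
      · have h1 : a u u = 1 := hz _ h0
        have d1 := c1 0 (by rw [h1, add_zero])
        have d0 := c0 1 (by rw [h1]; decide)
        omega

end Pool.Agent.J4H77.GF
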