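import Pool.Agent.J4H77.GF.Prd
import Pool.Agent.J4H77.GF.Gl

/-!
# Averages over independent coordinates
-/

set_option autoImplicit false

open scoped Classical

namespace Pool.Agent.J4H77.GF

open Finset
open Pool.Agent.R413.SQ (mk Sp In Sol Gd cu)
open Pool.Agent.Y703.CQ (nr)

/-- averages of products of functions of disjoint sets of coordinates -/
theorem av_union {J K : Finset ℕ} (hJK : Disjoint J K) {h k : (ℕ → ZMod 2) → ℝ} (hh : Dep J h)
    (hk : Dep K k) : av (J ∪ K) (fun f => h f * k f) = av J h * av K k := by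
  unfold av
  rw [card_union_of_disjoint hJK, pow_add, div_mul_div_comm, sum_mul_sum, ← sum_product']
  refine congrArg (· / _) ?_
  refine sum_nbij' (fun B => (B ∩ J, B ∩ K)) (fun x => x.1 ∪ x.2) ?_ ?_ ?_ ?_ ?_
  · intro B _
    rw [mem_product, mem_powerset, mem_powerset]
    exact ⟨inter_subset_right, inter_subset_right⟩
  · intro x hx
    rw [mem_product, mem_powerset, mem_powerset] at hx
    rw [mem_powerset]
    exact union_subset_union hx.1 hx.2
  · intro B hB
    rw [mem_powerset] at hB
    rw [← inter_union_distrib_left, inter_eq_left]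
    exact hB
  · intro x hx
    rw [mem_product, mem_powerset, mem_powerset] at hx
    refine Prod.ext ?_ ?_
    · ext p
      simp only [mem_inter, mem_union]
      constructor
      · rintro ⟨h1 | h1, h2⟩
        · exact h1
        · exact absurd (hx.2 h1) (disjoint_left.1 hJK h2)
      · intro h1
        exact ⟨Or.inl h1, hx.1 h1⟩
    · ext p
      simp only [mem_inter, mem_union]
      constructor
      · rintro ⟨h1 | h1, h2⟩
        · exact absurd h2 (disjoint_left.1 hJK (hx.1 h1))
        · exact h1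
      · intro h1
        exact ⟨Or.inr h1, hx.2 h1⟩
  · intro B hB
    refine congrArg₂ (· * ·) (hh _ _ fun p hp => ?_) (hk _ _ fun p hp => ?_)
    · unfold ind
      simp only [mem_inter, hp, and_true]
    · unfold ind
      simp only [mem_inter, hp, and_true]

theorem av_prod {ι : Type} (s : Finset ι) (J : ι → Finset ℕ) (h : ι → (ℕ → ZMod 2) → ℝ)
    (hd : ∀ i ∈ s, Dep (J i) (h i)) (hJ : ∀ i ∈ s, ∀ j ∈ s, i ≠ j → Disjoint (J i) (J j)) :
    av (s.biUnion J) (fun f => ∏ i ∈ s, h i f) = ∏ i ∈ s, av (J i) (h i) := by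
  induction s using Finset.induction_on with
  | empty =>
    simp only [biUnion_empty, prod_empty]
    unfold av
    simp
  | insert a s ha ih =>
    rw [biUnion_insert, prod_insert ha, ← ih (fun i hi => hd i (mem_insert_of_mem hi))
      (fun i hi j hj => hJ i (mem_insert_of_mem hi) j (mem_insert_of_mem hj))]
    have h1 : (fun f => ∏ i ∈ insert a s, h i f) = fun f => h a f * ∏ i ∈ s, h i f := by
      funext f
      rw [prod_insert ha]
    rw [h1]
    refine av_union ?_ (hd a (mem_insert_self _ _)) ?_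
    · rw [disjoint_biUnion_right]
      intro i hi
      refine hJ a (mem_insert_self _ _) i (mem_insert_of_mem hi) ?_
      rintro rfl
      exact ha hi
    · intro f g hfg
      refine prod_congr rfl fun i hi => ?_
      exact hd i (mem_insert_of_mem hi) f g fun p hp => hfg p (mem_biUnion.2 ⟨i, hi, hp⟩)

theorem nr_self (p : ℕ) : nr p p = 0 := by
  unfold nr
  rw [ZMod.natCast_self, if_pos IsSquare.zero]

/-- the condition as a determinant -/
theorem gd_det {n : ℕ} (e : Fin n → ℕ) (he : Function.Injective e) {S : Finset ℕ}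
    (hU : univ.image e = sp S) (f : ℕ → ZMod 2) :
    Gd f S ↔ (Matrix.of (fun i j => if i = j then 0 else nr (e i) (e j)) +
      Matrix.diagonal fun i => f (e i) + ∑ s ∈ S, nr (e i) s).det ≠ 0 := by
  have h1 : Gd f S ↔ Gd (fun p => (fun _ => (0 : ZMod 2)) p + f p) S := by
    simp only [zero_add]
  rw [h1, gd_ns, ns_det e he hU]
  have h2 : (Matrix.of (fun i j => if i = j then 0 else Am (fun _ => 0) S (e i) (e j)) +
      Matrix.diagonal fun i => Am (fun _ => 0) S (e i) (e i) + f (e i)) =
      (Matrix.of (fun i j => if i = j then 0 else nr (e i) (e j)) +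
      Matrix.diagonal fun i => f (e i) + ∑ s ∈ S, nr (e i) s) := by
    ext i j
    simp only [Matrix.add_apply, Matrix.of_apply, Matrix.diagonal_apply]
    by_cases h : i = j
    · subst h
      simp only [if_true, Am, nr_self]
      ring
    · simp only [if_neg h]
      unfold Am
      rw [if_neg fun h' => h (he h'), add_zero]
  rw [h2]

theorem nr_one (u : ℕ) : nr u 1 = 0 := by
  unfold nr
  rw [Nat.cast_one, if_pos IsSquare.one]

/-- the symbol of an inert product -/
theorem sy_nr {n u : ℕ} (hn : InP n) (hu : u.Prime) (hm : R413.SQ.mk u = 1) : sy n u = nr u n := by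
  have key : ∀ E : Finset ℕ, (∀ p ∈ E, p.Prime ∧ R413.SQ.mk p ≠ 1) →
      ¬ u ∣ ∏ p ∈ E, p ∧ ∑ p ∈ E, nr u p = nr u (∏ p ∈ E, p) := by
    intro E
    induction E using Finset.induction_on with
    | empty =>
      intro _
      refine ⟨?_, ?_⟩
      · rw [prod_empty]
        exact fun h => hu.one_lt.ne' (Nat.dvd_one.1 h)
      · rw [sum_empty, prod_empty, nr_one]
    | insert a E ha ih =>
      intro hE
      obtain ⟨h1, h2⟩ := ih fun p hp => hE p (mem_insert_of_mem hp)
      obtain ⟨h3, h4⟩ := hE a (mem_insert_self _ _)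
      have h5 : ¬ u ∣ a := by
        intro h
        rw [(Nat.prime_dvd_prime_iff_eq hu h3).1 h] at hm
        exact h4 hm
      rw [prod_insert ha, sum_insert ha]
      refine ⟨?_, ?_⟩
      · intro h
        rcases (hu.dvd_mul).1 h with h | h
        · exact h5 h
        · exact h1 h
      · rw [nr_mul hu h5 h1, h2]
  have h1 := (key n.primeFactors fun p hp => ⟨Nat.prime_of_mem_primeFactors hp, (hn.2 p hp).2⟩).2
  rw [Nat.prod_primeFactors_of_squarefree hn.1] at h1
  exact h1

/-- inert primes with given symbols -/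
theorem exists_inert {U B : Finset ℕ} (hU : SpU U) (hB : B ⊆ U) :
    ∃ p : ℕ, p.Prime ∧ Ine p ∧ ∀ u ∈ U, nr u p = ind B u := by
  have h1 : 0 < (AA U B).card := by
    rw [AA_card hU hB]
    exact AA_pos hU
  obtain ⟨a, ha⟩ := card_pos.1 h1
  unfold AA at ha
  obtain ⟨-, h2, h3, h4⟩ := mem_filter.1 ha
  haveI : NeZero (md U) := ⟨(md_pos hU).ne'⟩
  obtain ⟨p, -, hp, hpm⟩ := Nat.forall_exists_prime_gt_and_eq_mod (q := md U)
    (a := (a : ZMod (md U))) ((ZMod.isUnit_iff_coprime a (md U)).2 h2) 0
  have hmod : p ≡ a [MOD md U] := (ZMod.natCast_eq_natCast_iff _ _ _).1 hpm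
  refine ⟨p, hp, ?_, fun u hu => ?_⟩
  · rw [← ine_mod (U := U) p, hmod, ine_mod]
    exact h3
  · have h5 : p ≡ a [MOD u] := hmod.of_dvd (dvd_md hu)
    rw [← nr_mod (dvd_refl u) p, h5, nr_mod (dvd_refl u), h4 u hu]

end Pool.Agent.J4H77.GF
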