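import Pool.Agent.R413.SM.L8
import Pool.Agent.J4H77.GF.Alg

/-!
# The average over the diagonals is concentrated
-/

set_option autoImplicit false

open scoped Classical

namespace Pool.Agent.J4H77.GF

open Finset Filter Topology
open Pool.Agent.R413.SQ
open Pool.Agent.R413.SQ.SM (Fa fa_mask lawD)
open Pool.Agent.Y703.CQ (nr c2)

/-- the event for the number `D` and the diagonal `g` -/
def Ev (T V : Finset ℕ) (g : ℕ → ZMod 2) (S : Finset ℕ) : Prop :=
  (∀ M ∈ V, Gd g (symmDiff S M.primeFactors)) ∧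
    ∀ M ∈ T \ V, ¬ Gd g (symmDiff S M.primeFactors)

/-- the coordinates -/
noncomputable def JJ (T : Finset ℕ) (S : Finset ℕ) : Finset ℕ :=
  sp (S ∪ T.biUnion Nat.primeFactors)

theorem ev_congr {T V : Finset ℕ} (hV : V ⊆ T) {g g' : ℕ → ZMod 2} {S : Finset ℕ}
    (h : ∀ p ∈ JJ T S, g p = g' p) : Ev T V g S ↔ Ev T V g' S := by
  have key : ∀ M ∈ T, (Gd g (symmDiff S M.primeFactors) ↔ Gd g' (symmDiff S M.primeFactors)) := by
    intro M hM
    refine gd_congr fun p hp hm => h p ?_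
    unfold JJ
    rw [mem_sp]
    refine ⟨?_, hm⟩
    rw [mem_symmDiff] at hp
    rcases hp with hp | hp
    · exact mem_union_left _ hp.1
    · exact mem_union_right _ (mem_biUnion.2 ⟨M, hM, hp.1⟩)
  unfold Ev
  refine and_congr ?_ ?_
  · exact forall_congr' fun M => forall_congr' fun hM => key M (hV hM)
  · exact forall_congr' fun M => forall_congr' fun hM => not_congr (key M (mem_sdiff.1 hM).1)

/-- the class up to `X` -/
noncomputable def cls (X : ℕ) : Finset ℕ :=
  (Icc 1 X).filter fun D => Squarefree D ∧ Cl ∅ ∅ D.primeFactors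

theorem cls_pos {X : ℕ} (hX : 1 ≤ X) : 0 < (cls X).card := by
  rw [card_pos]
  refine ⟨1, mem_filter.2 ⟨mem_Icc.2 ⟨le_rfl, hX⟩, squarefree_one, ?_⟩⟩
  rw [Nat.primeFactors_one]
  intro p hp
  exact absurd hp (notMem_empty p)

/-- a number of the class with a given set of masks -/
structure Msk (T : Finset ℕ) (m : ℕ) (r : Fin m → ℕ) : Prop where
  sq : ∀ M ∈ T, Squarefree M ∧ ∀ p ∈ M.primeFactors, p % 4 = 1
  inj : Function.Injective r
  pr : ∀ i, (r i).Prime ∧ r i % 4 = 1 ∧ R413.SQ.mk (r i) ≠ 1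
  nd : ∀ i, ∀ M ∈ T, r i ∉ M.primeFactors

/-- the masks -/
noncomputable def VV {T : Finset ℕ} {m : ℕ} (r : Fin m → ℕ) (e : {M : ℕ // M ∈ T} × Fin m) :
    Finset ℕ := symmDiff e.1.1.primeFactors {r e.2}

theorem fa {T : Finset ℕ} {m : ℕ} {r : Fin m → ℕ} (h : Msk T m r) (g : ℕ → ZMod 2) :
    Fa (fun _ : {M : ℕ // M ∈ T} × Fin m => g) (VV r) := by
  refine fa_mask g ?_ ?_
  · rintro ⟨⟨M, hM⟩, i⟩ ⟨⟨N, hN⟩, j⟩ hij
    unfold VV at hij
    simp only at hij
    have h1 : r i ∈ symmDiff M.primeFactors {r i} :=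
      mem_symmDiff.2 (Or.inr ⟨mem_singleton_self _, h.nd i M hM⟩)
    rw [hij, mem_symmDiff] at h1
    have h2 : r i = r j := by
      rcases h1 with h1 | h1
      · exact absurd h1.1 (h.nd i N hN)
      · exact mem_singleton.1 h1.1
    have h3 : i = j := h.inj h2
    subst h3
    have h4 : M.primeFactors = N.primeFactors := symmDiff_left_injective _ hij
    have h5 : M = N := by
      rw [← Nat.prod_primeFactors_of_squarefree (h.sq M hM).1,
        ← Nat.prod_primeFactors_of_squarefree (h.sq N hN).1, h4]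
    subst h5
    rfl
  · rintro ⟨⟨M, hM⟩, i⟩ u hu
    unfold VV at hu
    simp only at hu
    rw [mem_symmDiff] at hu
    rcases hu with hu | hu
    · exact ⟨Nat.prime_of_mem_primeFactors hu.1, (h.sq M hM).2 u hu.1⟩
    · rw [mem_singleton] at hu
      rw [hu.1]
      exact ⟨(h.pr i).1, (h.pr i).2.1⟩

theorem ev_shift {T V : Finset ℕ} {g : ℕ → ZMod 2} {S : Finset ℕ} {r : ℕ} (hr : R413.SQ.mk r ≠ 1) :
    Ev T V (fun p => g p + nr p r) S ↔ (∀ M ∈ V, Gd g (symmDiff S (symmDiff M.primeFactors {r}))) ∧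
      ∀ M ∈ T \ V, ¬ Gd g (symmDiff S (symmDiff M.primeFactors {r})) := by
  have key : ∀ M : ℕ, Gd (fun p => g p + nr p r) (symmDiff S M.primeFactors) ↔
      Gd g (symmDiff S (symmDiff M.primeFactors {r})) := by
    intro M
    rw [← gd_symm hr, symmDiff_assoc]
  unfold Ev
  simp only [key]

/-- the joint law for several shifts -/
theorem lim_set {T V : Finset ℕ} (hV : V ⊆ T) {m : ℕ} {r : Fin m → ℕ} (h : Msk T m r)
    (g : ℕ → ZMod 2) (I : Finset (Fin m)) : Tendsto (fun X : ℕ =>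
      (((cls X).filter fun D => ∀ i ∈ I, Ev T V (fun p => g p + nr p (r i)) D.primeFactors).card : ℝ)
        / ((cls X).card : ℝ)) atTop (𝓝 ((c2 ^ V.card * (1 - c2) ^ (T \ V).card) ^ I.card)) := by
  set P : Finset ({M : ℕ // M ∈ T} × Fin m) := (V.subtype (· ∈ T)) ×ˢ I with hP
  set Q : Finset ({M : ℕ // M ∈ T} × Fin m) := ((T \ V).subtype (· ∈ T)) ×ˢ I with hQ
  have hPQ : Disjoint P Q := by
    rw [Finset.disjoint_left]
    rintro ⟨M, i⟩ h1 h2
    rw [hP, mem_product, mem_subtype] at h1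
    rw [hQ, mem_product, mem_subtype] at h2
    exact (mem_sdiff.1 h2.1).2 h1.1
  have cP : P.card = V.card * I.card := by
    rw [hP, card_product, card_subtype, filter_true_of_mem fun x hx => hV hx]
  have cQ : Q.card = (T \ V).card * I.card := by
    rw [hQ, card_product, card_subtype, filter_true_of_mem fun x hx => (mem_sdiff.1 hx).1]
  have h1 := lawD ∅ ∅ trivial (fa h g) P Q hPQ
  rw [cP, cQ, pow_mul, pow_mul, ← mul_pow] at h1
  refine h1.congr fun X => ?_
  refine congrArg₂ (· / ·) (congrArg (Nat.cast : ℕ → ℝ) (congrArg Finset.card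
    (Finset.ext fun D => ?_))) rfl
  have e : (∀ i ∈ I, Ev T V (fun p => g p + nr p (r i)) D.primeFactors) ↔
      (∀ i ∈ P, Gd g (symmDiff D.primeFactors (VV r i))) ∧
        ∀ i ∈ Q, ¬ Gd g (symmDiff D.primeFactors (VV r i)) := by
    constructor
    · intro h2
      constructor
      · rintro ⟨M, i⟩ hi
        rw [hP, mem_product, mem_subtype] at hi
        exact ((ev_shift (h.pr i).2.2).1 (h2 i hi.2)).1 M.1 hi.1
      · rintro ⟨M, i⟩ hi
        rw [hQ, mem_product, mem_subtype] at hi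
        exact ((ev_shift (h.pr i).2.2).1 (h2 i hi.2)).2 M.1 hi.1
    · rintro ⟨h2, h3⟩ i hi
      rw [ev_shift (h.pr i).2.2]
      constructor
      · intro M hM
        exact h2 (⟨M, hV hM⟩, i) (mem_product.2 ⟨mem_subtype.2 hM, hi⟩)
      · intro M hM
        exact h3 (⟨M, (mem_sdiff.1 hM).1⟩, i) (mem_product.2 ⟨mem_subtype.2 hM, hi⟩)
  unfold cls
  simp only [mem_filter]
  rw [e]
  tauto

/-- the indicator function of the event -/
noncomputable def aa (T V : Finset ℕ) (f₀ : ℕ → ZMod 2) (D : ℕ) (f : ℕ → ZMod 2) : ℝ :=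
  if Ev T V (fun p => f₀ p + f p) D.primeFactors then 1 else 0

theorem aa_dep {T V : Finset ℕ} (hV : V ⊆ T) (f₀ : ℕ → ZMod 2) (D : ℕ) :
    Dep (JJ T D.primeFactors) (aa T V f₀ D) := by
  intro f g hfg
  unfold aa
  have h1 : Ev T V (fun p => f₀ p + f p) D.primeFactors ↔
      Ev T V (fun p => f₀ p + g p) D.primeFactors := ev_congr hV fun p hp => by rw [hfg p hp]
  simp only [h1]

/-- the second moment -/
theorem second {T V : Finset ℕ} (hV : V ⊆ T) {m : ℕ} (hm : 0 < m) {r : Fin m → ℕ} (h : Msk T m r)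
    (f₀ f : ℕ → ZMod 2) : Tendsto (fun X : ℕ => (∑ D ∈ cls X,
      ((∑ i, aa T V f₀ D fun p => f p + nr p (r i)) / m -
        c2 ^ V.card * (1 - c2) ^ (T \ V).card) ^ 2) / ((cls X).card : ℝ)) atTop
      (𝓝 (c2 ^ V.card * (1 - c2) ^ (T \ V).card *
        (1 - c2 ^ V.card * (1 - c2) ^ (T \ V).card) / m)) := by
  set κ : ℝ := c2 ^ V.card * (1 - c2) ^ (T \ V).card with hκ
  have hm0 : (0 : ℝ) < m := by exact_mod_cast hm
  set A : Fin m → ℕ → ℝ := fun i D => aa T V f₀ D fun p => f p + nr p (r i) with hA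
  have hAe : ∀ i D, A i D = if Ev T V (fun p => (fun p => f₀ p + f p) p + nr p (r i))
      D.primeFactors then 1 else 0 := by
    intro i D
    rw [hA]
    simp only [aa]
    congr 2
    funext p
    rw [add_assoc]
  -- products
  have hAA : ∀ i j X, ∑ D ∈ cls X, A i D * A j D = (((cls X).filter fun D => ∀ k ∈ ({i, j} :
      Finset (Fin m)), Ev T V (fun p => (fun p => f₀ p + f p) p + nr p (r k))
        D.primeFactors).card : ℝ) := by
    intro i j X
    rw [card_filter]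
    push_cast
    refine sum_congr rfl fun D _ => ?_
    rw [hAe, hAe]
    simp only [mem_insert, mem_singleton, forall_eq_or_imp, forall_eq]
    by_cases h1 : Ev T V (fun p => f₀ p + f p + nr p (r i)) D.primeFactors <;>
    by_cases h2 : Ev T V (fun p => f₀ p + f p + nr p (r j)) D.primeFactors <;> simp [h1, h2]
  have hAs : ∀ i X, ∑ D ∈ cls X, A i D = ∑ D ∈ cls X, A i D * A i D := by
    intro i X
    refine sum_congr rfl fun D _ => ?_
    rw [hAe]
    split_ifs <;> norm_num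
  have l2 : ∀ i j, Tendsto (fun X : ℕ => (∑ D ∈ cls X, A i D * A j D) / ((cls X).card : ℝ)) atTop
      (𝓝 (if i = j then κ else κ ^ 2)) := by
    intro i j
    have h1 := lim_set hV h (fun p => f₀ p + f p) {i, j}
    simp only [hAA]
    convert h1 using 2
    split_ifs with hij
    · subst hij
      rw [pair_eq_singleton, card_singleton, pow_one]
    · rw [card_pair hij]
  have l1 : ∀ i, Tendsto (fun X : ℕ => (∑ D ∈ cls X, A i D) / ((cls X).card : ℝ)) atTop
      (𝓝 κ) := by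
    intro i
    have h1 := l2 i i
    rw [if_pos rfl] at h1
    refine h1.congr fun X => ?_
    rw [hAs]
  have lim : Tendsto (fun X : ℕ => (1 / (m : ℝ) ^ 2) * ∑ i : Fin m, ∑ j : Fin m,
      (∑ D ∈ cls X, A i D * A j D) / ((cls X).card : ℝ) - 2 * κ / m * ∑ i : Fin m,
      (∑ D ∈ cls X, A i D) / ((cls X).card : ℝ) + κ ^ 2) atTop
      (𝓝 ((1 / (m : ℝ) ^ 2) * ∑ i : Fin m, ∑ j : Fin m, (if i = j then κ else κ ^ 2) -
        2 * κ / m * ∑ _i : Fin m, κ + κ ^ 2)) := by
    refine Tendsto.add (Tendsto.sub (Tendsto.const_mul _ ?_) (Tendsto.const_mul _ ?_))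
      tendsto_const_nhds
    · exact tendsto_finsetSum _ fun i _ => tendsto_finsetSum _ fun j _ => l2 i j
    · exact tendsto_finsetSum _ fun i _ => l1 i
  have e1 : (1 / (m : ℝ) ^ 2) * ∑ i : Fin m, ∑ j : Fin m, (if i = j then κ else κ ^ 2) -
        2 * κ / m * ∑ _i : Fin m, κ + κ ^ 2 = κ * (1 - κ) / m := by
    have h1 : ∀ i : Fin m, ∑ j : Fin m, (if i = j then κ else κ ^ 2) = κ + (m - 1) * κ ^ 2 := by
      intro i
      have h2 : ∀ j : Fin m, (if i = j then κ else κ ^ 2) = κ ^ 2 + if i = j then κ - κ ^ 2 else 0 := by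
        intro j
        split_ifs <;> ring
      simp only [h2, sum_add_distrib, sum_const, card_univ, Fintype.card_fin, nsmul_eq_mul,
        sum_ite_eq, mem_univ, if_true]
      ring
    simp only [h1, sum_const, card_univ, Fintype.card_fin, nsmul_eq_mul]
    field_simp
    ring
  rw [e1] at lim
  refine lim.congr' ?_
  filter_upwards [eventually_ge_atTop 1] with X hX
  have hc : (0 : ℝ) < ((cls X).card : ℝ) := by exact_mod_cast cls_pos hX
  have e2 : ∑ D ∈ cls X, ((∑ i, A i D) / (m : ℝ) - κ) ^ 2 =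
      (1 / (m : ℝ) ^ 2) * ∑ i : Fin m, ∑ j : Fin m, (∑ D ∈ cls X, A i D * A j D) -
        2 * κ / m * ∑ i : Fin m, (∑ D ∈ cls X, A i D) + κ ^ 2 * ((cls X).card : ℝ) := by
    have h1 : ∀ D, ((∑ i, A i D) / (m : ℝ) - κ) ^ 2 =
        (1 / (m : ℝ) ^ 2) * ∑ i : Fin m, ∑ j : Fin m, A i D * A j D -
          2 * κ / m * ∑ i : Fin m, A i D + κ ^ 2 := by
      intro D
      have h2 : ∑ i : Fin m, ∑ j : Fin m, A i D * A j D = (∑ i, A i D) ^ 2 := by
        rw [sq, sum_mul_sum]
      rw [h2]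
      field_simp
      ring
    have t1 : ∑ D ∈ cls X, ∑ i : Fin m, ∑ j : Fin m, A i D * A j D =
        ∑ i : Fin m, ∑ j : Fin m, ∑ D ∈ cls X, A i D * A j D := by
      rw [sum_comm]
      exact sum_congr rfl fun i _ => sum_comm
    have t2 : ∑ D ∈ cls X, ∑ i : Fin m, A i D = ∑ i : Fin m, ∑ D ∈ cls X, A i D := sum_comm
    rw [sum_congr rfl fun D _ => h1 D, sum_add_distrib, sum_sub_distrib, ← mul_sum, ← mul_sum,
      sum_const, nsmul_eq_mul, t1, t2]
    ring
  have e3 : ∑ D ∈ cls X, ((∑ i, aa T V f₀ D fun p => f p + nr p (r i)) / (m : ℝ) - κ) ^ 2 =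
      ∑ D ∈ cls X, ((∑ i, A i D) / (m : ℝ) - κ) ^ 2 := rfl
  rw [e3, e2]
  simp only [← sum_div]
  field_simp

end Pool.Agent.J4H77.GF
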