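import Pool.Agent.J4H77.GF.Wir

/-!
# The products of inert primes with given quadratic symbols
-/

set_option autoImplicit false

open scoped Classical

namespace Pool.Agent.J4H77.GF

open Finset Filter Topology
open Pool.Agent.R413.SQ (mk Sp In Sol Gd cu)
open Pool.Agent.Y703.CQ (nr)

/-- squarefree products of inert primes -/
def InP (n : ℕ) : Prop := Squarefree n ∧ ∀ p ∈ n.primeFactors, Ine p

/-- the symbols of a product -/
noncomputable def sy (n u : ℕ) : ZMod 2 := ∑ p ∈ n.primeFactors, nr u p

theorem sgz_add (a b : ZMod 2) : sgz (a + b) = sgz a * sgz b := by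
  have hz : ∀ z : ZMod 2, z = 0 ∨ z = 1 := by decide
  have h11 : (1 : ZMod 2) + 1 = 0 := by decide
  have h10 : (1 : ZMod 2) ≠ 0 := by decide
  unfold sgz
  rcases hz a with rfl | rfl <;> rcases hz b with rfl | rfl
  · rw [add_zero, if_pos rfl]; norm_num
  · rw [zero_add, if_neg h10, if_pos rfl]; norm_num
  · rw [add_zero, if_neg h10, if_pos rfl]; norm_num
  · rw [h11, if_neg h10, if_pos rfl]; norm_num

theorem sgz_sum (s : Finset ℕ) (f : ℕ → ZMod 2) : sgz (∑ p ∈ s, f p) = ∏ p ∈ s, sgz (f p) := by
  induction s using Finset.induction_on with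
  | empty => simp [sgz]
  | insert a s ha ih => rw [sum_insert ha, prod_insert ha, sgz_add, ih]

theorem wt_eq (W : Finset ℕ) (n : ℕ) :
    wt (gW W) n = if InP n then ∏ u ∈ W, sgz (sy n u) else 0 := by
  unfold wt InP
  by_cases h : Squarefree n
  · by_cases h2 : ∀ p ∈ n.primeFactors, Ine p
    · rw [if_pos h, if_pos ⟨h, h2⟩]
      unfold sy
      simp only [sgz_sum]
      rw [Finset.prod_comm]
      refine prod_congr rfl fun p hp => ?_
      unfold gW
      rw [if_pos (h2 p hp)]
    · rw [if_pos h, if_neg fun h' => h2 h'.2]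
      push Not at h2
      obtain ⟨p, hp, h3⟩ := h2
      refine prod_eq_zero hp ?_
      unfold gW
      rw [if_neg h3]
  · rw [if_neg h, if_neg fun h' => h h'.1]

theorem GG_eq (N : ℕ) : GG N = (((Icc 1 N).filter InP).card : ℝ) := by
  unfold GG
  simp only [wt_eq, prod_empty]
  rw [sum_boole]

theorem cell {U B : Finset ℕ} (hU : SpU U) :
    Tendsto (fun N : ℕ => (((Icc 1 N).filter fun n => InP n ∧ ∀ u ∈ U, sy n u = ind B u).card : ℝ) /
      GG N) atTop (𝓝 (1 / 2 ^ U.card)) := by
  have hz : ∀ z : ZMod 2, z ≠ 0 → z = 1 := by decide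
  have e : ∀ N : ℕ, (((Icc 1 N).filter fun n => InP n ∧ ∀ u ∈ U, sy n u = ind B u).card : ℝ) /
      GG N = (1 / 2 ^ U.card) * ∑ W ∈ U.powerset, (∏ u ∈ W, sgz (ind B u)) *
        ((∑ n ∈ Icc 1 N, wt (gW W) n) / GG N) := by
    intro N
    have h1 : (2 : ℝ) ^ U.card * (((Icc 1 N).filter fun n => InP n ∧ ∀ u ∈ U,
        sy n u = ind B u).card : ℝ) =
        ∑ W ∈ U.powerset, (∏ u ∈ W, sgz (ind B u)) * ∑ n ∈ Icc 1 N, wt (gW W) n := by
      rw [card_filter]
      push_cast
      simp only [mul_sum]
      rw [sum_comm]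
      refine sum_congr rfl fun n _ => ?_
      by_cases hn : InP n
      · have h2 : ∀ W, wt (gW W) n = ∏ u ∈ W, sgz (sy n u) := fun W => by
          rw [wt_eq, if_pos hn]
        simp only [h2, ← prod_mul_distrib]
        rw [← prod_one_add]
        by_cases h3 : ∀ u ∈ U, sy n u = ind B u
        · rw [if_pos ⟨hn, h3⟩, mul_one, ← prod_const]
          refine prod_congr rfl fun u hu => ?_
          rw [h3 u hu]
          unfold sgz
          split_ifs <;> norm_num
        · rw [if_neg fun h' => h3 h'.2, mul_zero]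
          push Not at h3
          obtain ⟨u, hu, h4⟩ := h3
          refine (prod_eq_zero hu ?_).symm
          unfold sgz
          by_cases h5 : ind B u = 0
          · rw [if_pos h5, if_neg fun h' => h4 (h'.trans h5.symm)]
            norm_num
          · have h6 : sy n u = 0 := by
              by_contra h7
              exact h4 ((hz _ h7).trans (hz _ h5).symm)
            rw [if_neg h5, if_pos h6]
            norm_num
      · rw [if_neg fun h' => hn h'.1, mul_zero]
        refine (sum_eq_zero fun W _ => ?_).symm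
        rw [wt_eq, if_neg hn, mul_zero]
    have h2 : (2 : ℝ) ^ U.card ≠ 0 := by positivity
    have h3 : (((Icc 1 N).filter fun n => InP n ∧ ∀ u ∈ U, sy n u = ind B u).card : ℝ) =
        (1 / 2 ^ U.card) * ∑ W ∈ U.powerset, (∏ u ∈ W, sgz (ind B u)) *
          ∑ n ∈ Icc 1 N, wt (gW W) n := by
      rw [← h1]
      field_simp
    rw [h3, mul_div_assoc, sum_div]
    congr 1
    exact sum_congr rfl fun W _ => mul_div_assoc _ _ _
  have h2 : Tendsto (fun N : ℕ => (1 / 2 ^ U.card : ℝ) * ∑ W ∈ U.powerset,
      (∏ u ∈ W, sgz (ind B u)) * ((∑ n ∈ Icc 1 N, wt (gW W) n) / GG N)) atTop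
      (𝓝 ((1 / 2 ^ U.card : ℝ) * ∑ W ∈ U.powerset, (∏ u ∈ W, sgz (ind B u)) *
        if W = ∅ then 1 else 0)) := by
    refine Tendsto.const_mul _ (tendsto_finsetSum _ fun W hW => Tendsto.const_mul _ ?_)
    split_ifs with h0
    · subst h0
      refine tendsto_const_nhds.congr' ?_
      filter_upwards [eventually_ge_atTop 1] with N hN
      have := GG_pos hN
      change 1 = GG N / GG N
      rw [div_self this.ne']
    · exact mean_zero hU (mem_powerset.1 hW) h0
  have h3 : ∑ W ∈ U.powerset, (∏ u ∈ W, sgz (ind B u)) * (if W = ∅ then (1 : ℝ) else 0) = 1 := by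
    rw [sum_eq_single (∅ : Finset ℕ) (fun W _ h => by rw [if_neg h, mul_zero])
      (fun h => absurd (empty_mem_powerset U) h), if_pos rfl, prod_empty, mul_one]
  rw [h3, mul_one] at h2
  exact h2.congr fun N => (e N).symm

/-- **the density of the products of inert primes with a property of the symbols** -/
theorem densP {U : Finset ℕ} (hU : SpU U) {P : (ℕ → ZMod 2) → Prop}
    (hP : ∀ f g, (∀ u ∈ U, f u = g u) → (P f ↔ P g)) :
    Tendsto (fun N : ℕ => (((Icc 1 N).filter fun n => InP n ∧ P (sy n)).card : ℝ) /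
      (((Icc 1 N).filter InP).card : ℝ)) atTop (𝓝 (av U fun f => if P f then 1 else 0)) := by
  have hz : ∀ z : ZMod 2, z ≠ 0 → z = 1 := by decide
  have key : ∀ a (B : Finset ℕ), B ⊆ U → ((U.filter fun u => sy a u ≠ 0) = B ↔
      ∀ u ∈ U, sy a u = ind B u) := by
    intro a B hB
    constructor
    · intro h u hu
      unfold ind
      by_cases hb : u ∈ B
      · rw [if_pos hb]
        rw [← h] at hb
        exact hz _ (mem_filter.1 hb).2
      · rw [if_neg hb]
        by_contra h0
        apply hb
        rw [← h]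
        exact mem_filter.2 ⟨hu, h0⟩
    · intro h
      ext u
      rw [mem_filter]
      constructor
      · rintro ⟨hu, h0⟩
        rw [h u hu] at h0
        unfold ind at h0
        by_contra hb
        rw [if_neg hb] at h0
        exact h0 rfl
      · intro hb
        refine ⟨hB hb, ?_⟩
        rw [h u (hB hb)]
        unfold ind
        rw [if_pos hb]
        exact one_ne_zero
  have e : ∀ N, (((Icc 1 N).filter fun n => InP n ∧ P (sy n)).card : ℝ) /
      (((Icc 1 N).filter InP).card : ℝ) = ∑ B ∈ U.powerset.filter fun B => P (ind B),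
        (((Icc 1 N).filter fun n => InP n ∧ ∀ u ∈ U, sy n u = ind B u).card : ℝ) / GG N := by
    intro N
    rw [← GG_eq, ← sum_div]
    refine congrArg₂ (· / ·) ?_ rfl
    rw [← Nat.cast_sum]
    refine congrArg (Nat.cast : ℕ → ℝ) ?_
    rw [card_eq_sum_card_fiberwise (t := U.powerset.filter fun B => P (ind B))
      (f := fun n => U.filter fun u => sy n u ≠ 0)]
    · refine sum_congr rfl fun B hB => ?_
      obtain ⟨hB1, hB2⟩ := mem_filter.1 hB
      rw [mem_powerset] at hB1
      refine congrArg Finset.card (Finset.ext fun n => ?_)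
      simp only [mem_filter]
      rw [key n B hB1]
      constructor
      · rintro ⟨⟨h0, h1, -⟩, h3⟩
        exact ⟨h0, h1, h3⟩
      · rintro ⟨h0, h1, h3⟩
        exact ⟨⟨h0, h1, (hP _ _ h3).2 hB2⟩, h3⟩
    · intro n hn
      rw [mem_coe] at hn
      simp only [mem_filter] at hn
      rw [mem_coe, mem_filter, mem_powerset]
      refine ⟨filter_subset _ _, ?_⟩
      exact (hP _ _ ((key n _ (filter_subset _ _)).1 rfl)).1 hn.2.2
  have h1 : Tendsto (fun N : ℕ => ∑ B ∈ U.powerset.filter fun B => P (ind B),
      (((Icc 1 N).filter fun n => InP n ∧ ∀ u ∈ U, sy n u = ind B u).card : ℝ) / GG N) atTop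
      (𝓝 (∑ B ∈ U.powerset.filter fun B => P (ind B), (1 / 2 ^ U.card : ℝ))) :=
    tendsto_finsetSum _ fun B _ => cell hU
  have h2 : ∑ B ∈ U.powerset.filter (fun B => P (ind B)), (1 / 2 ^ U.card : ℝ) =
      av U fun f => if P f then 1 else 0 := by
    unfold av
    rw [sum_boole, sum_const, nsmul_eq_mul]
    ring
  rw [h2] at h1
  exact h1.congr fun N => (e N).symm

/-- the reciprocity for products -/
theorem gd_prod {n : ℕ} (hn : InP n) (g : ℕ → ZMod 2) (S : Finset ℕ) :
    Gd g (symmDiff S n.primeFactors) ↔ Gd (fun u => g u + sy n u) S := by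
  have key : ∀ (E : Finset ℕ), (∀ p ∈ E, R413.SQ.mk p ≠ 1) → ∀ (g : ℕ → ZMod 2) (S : Finset ℕ),
      (Gd g (symmDiff S E) ↔ Gd (fun u => g u + ∑ p ∈ E, nr u p) S) := by
    intro E
    induction E using Finset.induction_on with
    | empty =>
      intro _ g S
      have e1 : symmDiff S ∅ = S := symmDiff_bot S
      rw [e1]
      simp only [sum_empty, add_zero]
    | insert r E hr ih =>
      intro hE g S
      have h1 : symmDiff S (insert r E) = symmDiff (symmDiff S E) {r} := by
        rw [symmDiff_assoc]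
        congr 1
        ext p
        simp only [mem_symmDiff, mem_insert, mem_singleton]
        by_cases h1 : p = r
        · subst h1
          simp [hr]
        · simp [h1]
      rw [h1, gd_symm (hE r (mem_insert_self _ _)), ih (fun p hp => hE p (mem_insert_of_mem hp))]
      refine iff_of_eq (congrArg (fun f => Gd f S) (funext fun u => ?_))
      rw [sum_insert hr]
      ring
  exact key n.primeFactors (fun p hp => (hn.2 p hp).2) g S

end Pool.Agent.J4H77.GF
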