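import Pool.Agent.Cov.PrimesAP
import Pool.Agent.J4H77.GF.Cnt

/-!
# Sums over primes with weight `log p` of periodic functions
-/

set_option autoImplicit false

open scoped Classical

namespace Pool.Agent.J4H77.GF

open Finset Filter Topology ArithmeticFunction
open Pool.Agent.Y703.CQ (nr)

/-- the sum of `log p` over the primes of a residue class -/
noncomputable def th (q a n : ℕ) : ℝ :=
  ∑ p ∈ (Icc 1 n).filter fun p => p.Prime ∧ p % q = a, Real.log p

theorem th_lim {q a : ℕ} (hq : 1 ≤ q) (ha : a < q) (hc : a.Coprime q) :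
    Tendsto (fun n : ℕ => th q a n / n) atTop (𝓝 (1 / (Nat.totient q : ℝ))) := by
  haveI : NeZero q := ⟨by omega⟩
  have hu : IsUnit ((a : ℕ) : ZMod q) := (ZMod.isUnit_iff_coprime a q).2 hc
  have h := (Pool.Agent.Cov.PNT.pnt_residueClass (q := q) (a := (a : ZMod q)) hu).comp
    (tendsto_natCast_atTop_atTop (R := ℝ))
  set A : ℕ → ℝ := fun n => ∑ k ∈ Icc 1 n, vonMangoldt.residueClass (a : ZMod q) k with hA
  have h1 : Tendsto (fun n : ℕ => A n / n) atTop (𝓝 (1 / (Nat.totient q : ℝ))) := by
    rw [one_div]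
    refine h.congr fun n => ?_
    simp only [Function.comp, Nat.floor_natCast, hA]
  have hcl : ∀ r : ℕ, ((r : ℕ) : ZMod q) = (a : ZMod q) ↔ r % q = a := by
    intro r
    rw [ZMod.natCast_eq_natCast_iff', Nat.mod_eq_of_lt ha]
  have h2 : Tendsto (fun n : ℕ => (Chebyshev.psi (n : ℝ) - Chebyshev.theta (n : ℝ)) / n) atTop
      (𝓝 0) := Pool.Agent.Cov.psi_theta_tendsto.comp tendsto_natCast_atTop_atTop
  have key : ∀ n : ℕ, th q a n ≤ A n ∧ A n - th q a n ≤
      Chebyshev.psi (n : ℝ) - Chebyshev.theta (n : ℝ) := by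
    intro n
    have e1 : Chebyshev.psi (n : ℝ) = ∑ k ∈ Icc 1 n, Λ k := by
      unfold Chebyshev.psi
      rw [Nat.floor_natCast]
      rfl
    have e2 : Chebyshev.theta (n : ℝ) = ∑ k ∈ Icc 1 n, if k.Prime then Real.log k else 0 := by
      rw [Chebyshev.theta, Nat.floor_natCast, ← sum_filter]
      rfl
    have e3 : th q a n = ∑ k ∈ Icc 1 n, if k.Prime ∧ k % q = a then Real.log k else 0 := by
      unfold th
      rw [sum_filter]
    have e4 : ∀ k : ℕ, (vonMangoldt.residueClass (a : ZMod q) k) =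
        if k % q = a then Λ k else 0 := by
      intro k
      unfold vonMangoldt.residueClass
      simp only [Set.indicator_apply, Set.mem_setOf_eq, hcl]
    constructor
    · rw [e3]
      refine sum_le_sum fun k _ => ?_
      rw [e4]
      by_cases hk : k % q = a
      · rw [if_pos hk]
        by_cases hp : k.Prime
        · rw [if_pos ⟨hp, hk⟩, vonMangoldt_apply_prime hp]
        · rw [if_neg fun h' => hp h'.1]
          exact vonMangoldt_nonneg
      · rw [if_neg hk, if_neg fun h' => hk h'.2]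
    · rw [e1, e2, e3, ← sum_sub_distrib, ← sum_sub_distrib]
      refine sum_le_sum fun k _ => ?_
      rw [e4]
      by_cases hk : k % q = a
      · rw [if_pos hk]
        by_cases hp : k.Prime
        · rw [if_pos ⟨hp, hk⟩, if_pos hp]
        · rw [if_neg fun h' => hp h'.1, if_neg hp]
      · rw [if_neg hk, if_neg fun h' => hk h'.2, sub_zero]
        by_cases hp : k.Prime
        · rw [if_pos hp, vonMangoldt_apply_prime hp, sub_self]
        · rw [if_neg hp, sub_zero]
          exact vonMangoldt_nonneg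
  have h3 : Tendsto (fun n : ℕ => (A n - th q a n) / n) atTop (𝓝 0) := by
    refine squeeze_zero (fun n => ?_) (fun n => ?_) h2
    · exact div_nonneg (sub_nonneg.2 (key n).1) (Nat.cast_nonneg _)
    · exact div_le_div_of_nonneg_right (key n).2 (Nat.cast_nonneg _)
  have h4 := h1.sub h3
  rw [sub_zero] at h4
  refine h4.congr fun n => ?_
  rw [← sub_div]
  congr 1
  ring

theorem th_zero {q a : ℕ} (hq : 1 ≤ q) (hc : ¬ a.Coprime q) :
    Tendsto (fun n : ℕ => th q a n / n) atTop (𝓝 0) := by
  have hb : Tendsto (fun n : ℕ => (∑ p ∈ Icc 1 q, Real.log p) / (n : ℝ)) atTop (𝓝 0) :=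
    tendsto_const_nhds.div_atTop tendsto_natCast_atTop_atTop
  have hl : ∀ p ∈ Icc 1 q, 0 ≤ Real.log (p : ℝ) := fun p hp =>
    Real.log_nonneg (by exact_mod_cast (mem_Icc.1 hp).1)
  refine squeeze_zero (fun n => ?_) (fun n => ?_) hb
  · refine div_nonneg (sum_nonneg fun p hp => ?_) (Nat.cast_nonneg _)
    exact Real.log_nonneg (by exact_mod_cast (mem_Icc.1 (mem_filter.1 hp).1).1)
  · refine div_le_div_of_nonneg_right ?_ (Nat.cast_nonneg _)
    unfold th
    refine sum_le_sum_of_subset_of_nonneg ?_ fun p hp _ => hl p hp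
    intro p hp
    obtain ⟨h1, h2, h3⟩ := mem_filter.1 hp
    rw [mem_Icc]
    refine ⟨(mem_Icc.1 h1).1, ?_⟩
    obtain ⟨l, hl, hla, hlq⟩ := Nat.Prime.not_coprime_iff_dvd.1 hc
    have h5 : l ∣ p := by
      have h6 : l ∣ p % q := by rw [h3]; exact hla
      exact (Nat.dvd_mod_iff hlq).1 h6
    have h6 : l = p := (Nat.prime_dvd_prime_iff_eq hl h2).1 h5
    exact Nat.le_of_dvd (by omega) (h6 ▸ hlq)

/-- the sum of `F p log p` -/
noncomputable def tF (F : ℕ → ℝ) (n : ℕ) : ℝ := ∑ p ∈ (Icc 1 n).filter Nat.Prime, F p * Real.log p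

/-- **periodic functions over primes** -/
theorem tF_lim {q : ℕ} (hq : 1 ≤ q) {F : ℕ → ℝ} (hF : ∀ n, F (n % q) = F n) :
    Tendsto (fun n : ℕ => tF F n / n) atTop
      (𝓝 ((∑ a ∈ (range q).filter fun a => a.Coprime q, F a) / (Nat.totient q : ℝ))) := by
  have e1 : ∀ n, tF F n = ∑ a ∈ range q, F a * th q a n := by
    intro n
    unfold tF th
    rw [← sum_fiberwise_of_maps_to (s := (Icc 1 n).filter Nat.Prime) (t := range q)
      (g := fun p => p % q) (fun p _ => mem_range.2 (Nat.mod_lt _ (by omega)))]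
    refine sum_congr rfl fun a _ => ?_
    rw [mul_sum, filter_filter]
    refine sum_congr rfl fun p hp => ?_
    obtain ⟨-, -, h3⟩ := mem_filter.1 hp
    rw [← hF p, h3]
  have h2 : Tendsto (fun n : ℕ => ∑ a ∈ range q, F a * (th q a n / n)) atTop
      (𝓝 (∑ a ∈ range q, F a * if a.Coprime q then 1 / (Nat.totient q : ℝ) else 0)) := by
    refine tendsto_finsetSum _ fun a ha => Tendsto.const_mul _ ?_
    split_ifs with hc
    · exact th_lim hq (mem_range.1 ha) hc
    · exact th_zero hq hc
  have e2 : ∑ a ∈ range q, F a * (if a.Coprime q then 1 / (Nat.totient q : ℝ) else 0) =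
      (∑ a ∈ (range q).filter fun a => a.Coprime q, F a) / (Nat.totient q : ℝ) := by
    rw [sum_filter, sum_div]
    refine sum_congr rfl fun a _ => ?_
    split_ifs <;> ring
  rw [e2] at h2
  refine h2.congr fun n => ?_
  rw [e1, sum_div]
  exact sum_congr rfl fun a _ => by ring

/-- the sign -/
def sgz (z : ZMod 2) : ℝ := if z = 0 then 1 else -1

/-- the character of the set `W` on inert numbers -/
noncomputable def gW (W : Finset ℕ) (p : ℕ) : ℝ := if Ine p then ∏ u ∈ W, sgz (nr u p) else 0

theorem gW_per {U W : Finset ℕ} (hW : W ⊆ U) (n : ℕ) : gW W (n % md U) = gW W n := by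
  unfold gW
  have h1 : ∏ u ∈ W, sgz (nr u (n % md U)) = ∏ u ∈ W, sgz (nr u n) :=
    prod_congr rfl fun u hu => by rw [nr_mod (dvd_md (hW hu))]
  rw [h1]
  simp only [ine_mod]

/-- the sum over the residue classes -/
theorem sum_gW {U W : Finset ℕ} (hU : SpU U) (hW : W ⊆ U) :
    ∑ a ∈ (range (md U)).filter fun a => a.Coprime (md U), gW W a =
      if W = ∅ then 2 ^ U.card * ((AA U ∅).card : ℝ) else 0 := by
  have hz : ∀ z : ZMod 2, z ≠ 0 → z = 1 := by decide
  -- the fibres
  have key : ∀ a (B : Finset ℕ), B ⊆ U → ((U.filter fun u => nr u a ≠ 0) = B ↔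
      ∀ u ∈ U, nr u a = ind B u) := by
    intro a B hB
    constructor
    · intro h u hu
      unfold ind
      by_cases hb : u ∈ B
      · rw [if_pos hb]
        rw [← h] at hb
        exact hz _ (mem_filter.1 hb).2
      · rw [if_neg hb]
        by_contra h0
        apply hb
        rw [← h]
        exact mem_filter.2 ⟨hu, h0⟩
    · intro h
      ext u
      rw [mem_filter]
      constructor
      · rintro ⟨hu, h0⟩
        rw [h u hu] at h0
        unfold ind at h0
        by_contra hb
        rw [if_neg hb] at h0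
        exact h0 rfl
      · intro hb
        refine ⟨hB hb, ?_⟩
        rw [h u (hB hb)]
        unfold ind
        rw [if_pos hb]
        exact one_ne_zero
  rw [← sum_fiberwise_of_maps_to (s := (range (md U)).filter fun a => a.Coprime (md U))
    (t := U.powerset) (g := fun a => U.filter fun u => nr u a ≠ 0)
    (fun a _ => mem_powerset.2 (filter_subset _ _))]
  have h1 : ∀ B ∈ U.powerset, ∑ a ∈ ((range (md U)).filter fun a => a.Coprime (md U)).filter
      (fun a => (U.filter fun u => nr u a ≠ 0) = B), gW W a =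
      ((AA U ∅).card : ℝ) * ∏ u ∈ B, if u ∈ W then (-1 : ℝ) else 1 := by
    intro B hB
    rw [mem_powerset] at hB
    rw [← AA_card hU hB]
    have e1 : ∏ u ∈ B, (if u ∈ W then (-1 : ℝ) else 1) = ∏ u ∈ W, sgz (ind B u) := by
      rw [prod_ite, prod_const_one, mul_one]
      have e2 : ∀ u, sgz (ind B u) = if u ∈ B then (-1 : ℝ) else 1 := by
        intro u
        unfold sgz ind
        by_cases hb : u ∈ B
        · rw [if_pos hb, if_pos hb, if_neg one_ne_zero]
        · rw [if_neg hb, if_neg hb, if_pos rfl]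
      simp only [e2]
      rw [prod_ite, prod_const_one, mul_one]
      congr 1
      ext u
      simp only [mem_filter]
      tauto
    rw [e1]
    have e3 : ∑ a ∈ ((range (md U)).filter fun a => a.Coprime (md U)).filter
        (fun a => (U.filter fun u => nr u a ≠ 0) = B), gW W a =
        ∑ a ∈ AA U B, ∏ u ∈ W, sgz (ind B u) := by
      have e4 : AA U B = (((range (md U)).filter fun a => a.Coprime (md U)).filter
          (fun a => (U.filter fun u => nr u a ≠ 0) = B)).filter Ine := by
        unfold AA Ine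
        ext a
        simp only [mem_filter]
        rw [key a B hB]
        tauto
      conv_rhs => rw [e4, sum_filter]
      refine sum_congr rfl fun a ha => ?_
      have ha' : ∀ u ∈ U, nr u a = ind B u := (key a B hB).1 (mem_filter.1 ha).2
      unfold gW
      by_cases hi : Ine a
      · rw [if_pos hi, if_pos hi]
        exact prod_congr rfl fun u hu => by rw [ha' u (hW hu)]
      · rw [if_neg hi, if_neg hi]
    rw [e3, sum_const, nsmul_eq_mul]
  rw [sum_congr rfl h1, ← mul_sum]
  have h2 : ∑ B ∈ U.powerset, ∏ u ∈ B, (if u ∈ W then (-1 : ℝ) else 1) =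
      ∏ u ∈ U, (1 + if u ∈ W then (-1 : ℝ) else 1) := by
    rw [prod_one_add]
  rw [h2]
  split_ifs with hW0
  · subst hW0
    simp only [notMem_empty, if_false]
    rw [prod_const]
    norm_num
    ring
  · obtain ⟨v, hv⟩ := nonempty_iff_ne_empty.2 hW0
    rw [prod_eq_zero (hW hv) (by rw [if_pos hv]; norm_num), mul_zero]

/-- the sums over primes -/
theorem tF_gW {U W : Finset ℕ} (hU : SpU U) (hW : W ⊆ U) (hW0 : W ≠ ∅) :
    Tendsto (fun n : ℕ => tF (gW W) n / n) atTop (𝓝 0) := by
  have h := tF_lim (q := md U) (md_pos hU) (F := gW W) (gW_per hW)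
  rw [sum_gW hU hW, if_neg hW0, zero_div] at h
  exact h

theorem tF_one : ∃ c : ℝ, 0 < c ∧ Tendsto (fun n : ℕ => tF (gW ∅) n / n) atTop (𝓝 c) := by
  have hU : SpU ∅ := fun u hu => absurd hu (notMem_empty u)
  have h := tF_lim (q := md ∅) (md_pos hU) (F := gW ∅) (gW_per subset_rfl)
  rw [sum_gW hU subset_rfl, if_pos rfl] at h
  refine ⟨_, ?_, h⟩
  have h1 : (0 : ℝ) < ((AA ∅ ∅).card : ℝ) := by exact_mod_cast AA_pos hU
  have h2 : (0 : ℝ) < (Nat.totient (md ∅) : ℝ) := by
    exact_mod_cast Nat.totient_pos.2 (md_pos hU)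
  positivity

end Pool.Agent.J4H77.GF
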