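import Pool.Agent.Y405.CQ.MER
import Pool.Agent.J4H77.GF.Th

/-!
# Multiplicative functions on the squarefree products of inert primes
-/

set_option autoImplicit false

open scoped Classical

namespace Pool.Agent.J4H77.GF

open Finset Filter Topology
open Pool.Agent.Y703.CQ (nr)

/-- the multiplicative function on the squarefree numbers -/
noncomputable def wt (g : ℕ → ℝ) (n : ℕ) : ℝ :=
  if Squarefree n then ∏ p ∈ n.primeFactors, g p else 0

theorem wt_mul (g : ℕ → ℝ) {p m : ℕ} (hp : p.Prime) (h : ¬ p ∣ m) (hm : Squarefree m) :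
    wt g (p * m) = wt g m * g p := by
  have hc : Nat.Coprime p m := (Nat.Prime.coprime_iff_not_dvd hp).2 h
  have h1 : Squarefree (p * m) := (Nat.squarefree_mul hc).2 ⟨hp.prime.squarefree, hm⟩
  unfold wt
  rw [if_pos h1, if_pos hm, Nat.primeFactors_mul hp.ne_zero hm.ne_zero, hp.primeFactors,
    prod_union (by
      rw [disjoint_singleton_left]
      exact fun h' => h (Nat.dvd_of_mem_primeFactors h')), prod_singleton, mul_comm]

/-- the identity -/
theorem ident (g : ℕ → ℝ) (N : ℕ) : ∑ n ∈ Icc 1 N, wt g n * Real.log n =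
    ∑ m ∈ Icc 1 N, wt g m * (tF g (N / m) -
      ∑ p ∈ (Icc 1 (N / m)).filter (fun p => p.Prime ∧ p ∣ m), g p * Real.log p) := by
  have e1 : ∑ n ∈ Icc 1 N, wt g n * Real.log n =
      ∑ n ∈ (Icc 1 N).filter Squarefree, ∑ p ∈ n.primeFactors, wt g n * Real.log p := by
    rw [sum_filter]
    refine sum_congr rfl fun n hn => ?_
    split_ifs with h
    · rw [← mul_sum]
      congr 1
      have h0 : (n : ℝ) = ∏ p ∈ n.primeFactors, (p : ℝ) := by
        rw [← Nat.cast_prod, Nat.prod_primeFactors_of_squarefree h]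
      conv_lhs => rw [h0]
      rw [Real.log_prod]
      intro p hp
      exact_mod_cast (Nat.prime_of_mem_primeFactors hp).ne_zero
    · unfold wt
      rw [if_neg h, zero_mul]
  have e2 : ∀ m, tF g (N / m) - ∑ p ∈ (Icc 1 (N / m)).filter (fun p => p.Prime ∧ p ∣ m),
      g p * Real.log p = ∑ p ∈ (Icc 1 (N / m)).filter (fun p => p.Prime ∧ ¬ p ∣ m),
        g p * Real.log p := by
    intro m
    unfold tF
    rw [sub_eq_iff_eq_add, ← sum_filter_add_sum_filter_not ((Icc 1 (N / m)).filter Nat.Prime)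
      (fun p => p ∣ m), filter_filter, filter_filter, add_comm]
  simp only [e2]
  have e3 : ∑ m ∈ Icc 1 N, wt g m * ∑ p ∈ (Icc 1 (N / m)).filter (fun p => p.Prime ∧ ¬ p ∣ m),
      g p * Real.log p = ∑ m ∈ (Icc 1 N).filter Squarefree,
        ∑ p ∈ (Icc 1 (N / m)).filter (fun p => p.Prime ∧ ¬ p ∣ m), wt g m * (g p * Real.log p) := by
    rw [sum_filter]
    refine sum_congr rfl fun n hn => ?_
    split_ifs with h
    · rw [mul_sum]
    · unfold wt
      rw [if_neg h, zero_mul]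
  rw [e1, e3, sum_sigma', sum_sigma']
  refine sum_bij' (fun x _ => ⟨x.1 / x.2, x.2⟩) (fun x _ => ⟨x.2 * x.1, x.2⟩) ?_ ?_ ?_ ?_ ?_
  · rintro ⟨n, p⟩ hx
    simp only [mem_sigma, mem_filter, mem_Icc, Nat.mem_primeFactors] at hx ⊢
    obtain ⟨⟨⟨h1, h2⟩, h3⟩, h4, h5, h6⟩ := hx
    obtain ⟨m, rfl⟩ := h5
    have hm : 0 < m := Nat.pos_of_ne_zero (by rintro rfl; simp at h6)
    rw [Nat.mul_div_cancel_left m h4.pos]
    refine ⟨⟨⟨hm, ?_⟩, h3.squarefree_of_dvd (dvd_mul_left m p)⟩, ⟨h4.pos, ?_⟩, h4, ?_⟩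
    · exact le_trans (Nat.le_mul_of_pos_left m h4.pos) h2
    · rw [Nat.le_div_iff_mul_le hm]
      exact h2
    · intro h
      have h7 := h3 p (mul_dvd_mul_left p h)
      exact h4.one_lt.ne' (Nat.isUnit_iff.1 h7)
  · rintro ⟨m, p⟩ hx
    simp only [mem_sigma, mem_filter, mem_Icc, Nat.mem_primeFactors] at hx ⊢
    obtain ⟨⟨⟨h1, h2⟩, h3⟩, ⟨h4, h5⟩, h6, h7⟩ := hx
    have h8 : p * m ≤ N := (Nat.le_div_iff_mul_le h1).1 h5
    have h9 : 0 < p * m := Nat.mul_pos h6.pos h1
    refine ⟨⟨⟨h9, h8⟩, ?_⟩, h6, dvd_mul_right p m, h9.ne'⟩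
    exact (Nat.squarefree_mul ((Nat.Prime.coprime_iff_not_dvd h6).2 h7)).2
      ⟨h6.prime.squarefree, h3⟩
  · rintro ⟨n, p⟩ hx
    simp only [mem_sigma, mem_filter, mem_Icc, Nat.mem_primeFactors] at hx ⊢
    obtain ⟨⟨⟨h1, h2⟩, h3⟩, h4, h5, h6⟩ := hx
    rw [Nat.mul_div_cancel' h5]
  · rintro ⟨m, p⟩ hx
    simp only [mem_sigma, mem_filter, mem_Icc] at hx ⊢
    obtain ⟨⟨⟨h1, h2⟩, h3⟩, ⟨h4, h5⟩, h6, h7⟩ := hx
    rw [Nat.mul_div_cancel_left m h6.pos]
  · rintro ⟨n, p⟩ hx
    simp only [mem_sigma, mem_filter, mem_Icc, Nat.mem_primeFactors] at hx ⊢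
    obtain ⟨⟨⟨h1, h2⟩, h3⟩, h4, h5, h6⟩ := hx
    obtain ⟨m, rfl⟩ := h5
    rw [Nat.mul_div_cancel_left m h4.pos, wt_mul g h4 (fun h => by
      have h7 := h3 p (mul_dvd_mul_left p h)
      exact h4.one_lt.ne' (Nat.isUnit_iff.1 h7)) (h3.squarefree_of_dvd (dvd_mul_left m p))]
    ring

theorem log_le_sqrt (n : ℕ) : Real.log n ≤ 2 * (n : ℝ) ^ (1 / 2 : ℝ) := by
  rcases Nat.eq_zero_or_pos n with rfl | hn
  · norm_num
  · have h0 : (0 : ℝ) < n := by exact_mod_cast hn
    have h1 := Real.log_le_sub_one_of_pos (Real.rpow_pos_of_pos h0 (1 / 2 : ℝ))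
    rw [Real.log_rpow h0] at h1
    linarith

theorem sum_log : Summable fun n : ℕ => Real.log n / (n : ℝ) ^ 2 := by
  have h1 : Summable fun n : ℕ => 2 * ((n : ℝ) ^ (3 / 2 : ℝ))⁻¹ :=
    (Real.summable_nat_rpow_inv.2 (by norm_num)).mul_left 2
  refine Summable.of_nonneg_of_le (fun n => ?_) (fun n => ?_) h1
  · exact div_nonneg (Real.log_natCast_nonneg n) (by positivity)
  · rcases Nat.eq_zero_or_pos n with rfl | hn
    · norm_num
    · have h0 : (0 : ℝ) < n := by exact_mod_cast hn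
      have h2 : (n : ℝ) ^ 2 = (n : ℝ) ^ (3 / 2 : ℝ) * (n : ℝ) ^ (1 / 2 : ℝ) := by
        rw [← Real.rpow_add h0, ← Real.rpow_natCast]
        norm_num
      have h3 : 0 < (n : ℝ) ^ (3 / 2 : ℝ) := Real.rpow_pos_of_pos h0 _
      have h4 : 0 < (n : ℝ) ^ (1 / 2 : ℝ) := Real.rpow_pos_of_pos h0 _
      rw [div_le_iff₀ (by positivity), h2]
      have h5 := log_le_sqrt n
      calc Real.log n ≤ 2 * (n : ℝ) ^ (1 / 2 : ℝ) := h5
        _ = 2 * ((n : ℝ) ^ (3 / 2 : ℝ))⁻¹ * ((n : ℝ) ^ (3 / 2 : ℝ) * (n : ℝ) ^ (1 / 2 : ℝ)) := by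
            field_simp

/-- the constant -/
noncomputable def C0 : ℝ := ∑' n : ℕ, Real.log n / (n : ℝ) ^ 2

theorem C0_nn : 0 ≤ C0 := tsum_nonneg fun n => div_nonneg (Real.log_natCast_nonneg n) (by positivity)

/-- the error term -/
theorem err (N : ℕ) : ∑ m ∈ Icc 1 N, ∑ p ∈ (Icc 1 (N / m)).filter (fun p => p.Prime ∧ p ∣ m),
    Real.log p ≤ C0 * N := by
  have h1 : ∑ m ∈ Icc 1 N, ∑ p ∈ (Icc 1 (N / m)).filter (fun p => p.Prime ∧ p ∣ m), Real.log p ≤
      ∑ p ∈ Icc 1 N, ∑ m ∈ (Icc 1 N).filter (fun m => p ∣ m ∧ p * m ≤ N), Real.log p := by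
    rw [sum_sigma', sum_sigma']
    refine le_trans (le_of_eq ?_) (sum_le_sum_of_subset_of_nonneg (s := (((Icc 1 N).sigma fun m =>
      (Icc 1 (N / m)).filter (fun p => p.Prime ∧ p ∣ m)).image fun x => ⟨x.2, x.1⟩)) ?_ ?_)
    · rw [sum_image]
      rintro ⟨a, b⟩ - ⟨a', b'⟩ - h
      simp only [Sigma.mk.injEq, heq_eq_eq] at h ⊢
      exact ⟨h.2, h.1⟩
    · rintro ⟨p, m⟩ hx
      rw [mem_image] at hx
      obtain ⟨⟨a, b⟩, hx, h⟩ := hx
      simp only [Sigma.mk.injEq, heq_eq_eq] at h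
      obtain ⟨rfl, rfl⟩ := h
      simp only [mem_sigma, mem_filter, mem_Icc] at hx ⊢
      obtain ⟨⟨h1, h2⟩, ⟨h3, h4⟩, h5, h6⟩ := hx
      have h8 : b * a ≤ N := (Nat.le_div_iff_mul_le h1).1 h4
      exact ⟨⟨h3, le_trans (Nat.le_mul_of_pos_right b h1) h8⟩, ⟨h1, h2⟩, h6, h8⟩
    · rintro ⟨p, m⟩ - -
      exact Real.log_natCast_nonneg p
  have h2 : ∀ p ∈ Icc 1 N, ∑ m ∈ (Icc 1 N).filter (fun m => p ∣ m ∧ p * m ≤ N), Real.log p ≤
      N * (Real.log p / (p : ℝ) ^ 2) := by
    intro p hp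
    have hp1 := (mem_Icc.1 hp).1
    have hp0 : (0 : ℝ) < p := by exact_mod_cast hp1
    rw [sum_const, nsmul_eq_mul]
    have h3 : (((Icc 1 N).filter (fun m => p ∣ m ∧ p * m ≤ N)).card : ℝ) ≤ N / (p : ℝ) ^ 2 := by
      have h4 : ((Icc 1 N).filter (fun m => p ∣ m ∧ p * m ≤ N)).card ≤ N / p ^ 2 := by
        have h5 : ((Icc 1 N).filter (fun m => p ∣ m ∧ p * m ≤ N)).card ≤
            (Icc 1 (N / p ^ 2)).card := by
          refine card_le_card_of_injOn (fun m => m / p) ?_ ?_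
          · intro m hm
            rw [mem_coe] at hm
            simp only [mem_filter, mem_Icc] at hm
            obtain ⟨⟨h6, h7⟩, ⟨k, rfl⟩, h8⟩ := hm
            rw [mem_coe]
            simp only [mem_Icc]
            rw [Nat.mul_div_cancel_left k hp1]
            refine ⟨Nat.pos_of_ne_zero (by rintro rfl; simp at h6), ?_⟩
            rw [Nat.le_div_iff_mul_le (by positivity)]
            calc k * p ^ 2 = p * (p * k) := by ring
              _ ≤ N := h8
          · intro m hm m' hm' h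
            rw [mem_coe] at hm hm'
            obtain ⟨k, rfl⟩ := (mem_filter.1 hm).2.1
            obtain ⟨k', rfl⟩ := (mem_filter.1 hm').2.1
            simp only at h
            rw [Nat.mul_div_cancel_left k hp1, Nat.mul_div_cancel_left k' hp1] at h
            rw [h]
        rwa [Nat.card_Icc, Nat.add_sub_cancel] at h5
      calc (((Icc 1 N).filter (fun m => p ∣ m ∧ p * m ≤ N)).card : ℝ) ≤ ((N / p ^ 2 : ℕ) : ℝ) := by
            exact_mod_cast h4
        _ ≤ (N : ℝ) / ((p ^ 2 : ℕ) : ℝ) := Nat.cast_div_le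
        _ = N / (p : ℝ) ^ 2 := by push_cast; rfl
    calc _ ≤ N / (p : ℝ) ^ 2 * Real.log p :=
          mul_le_mul_of_nonneg_right h3 (Real.log_natCast_nonneg p)
      _ = N * (Real.log p / (p : ℝ) ^ 2) := by ring
  calc _ ≤ ∑ p ∈ Icc 1 N, N * (Real.log p / (p : ℝ) ^ 2) := h1.trans (sum_le_sum h2)
    _ = N * ∑ p ∈ Icc 1 N, (Real.log p / (p : ℝ) ^ 2) := by rw [mul_sum]
    _ ≤ N * C0 := by
        refine mul_le_mul_of_nonneg_left ?_ (Nat.cast_nonneg _)
        exact sum_log.sum_le_tsum _ fun n _ => div_nonneg (Real.log_natCast_nonneg n) (by positivity)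
    _ = C0 * N := mul_comm _ _

/-- `∑ log (N/n) ≤ N` -/
theorem sum_log_le (N : ℕ) : ∑ n ∈ Icc 1 N, (Real.log N - Real.log n) ≤ N := by
  induction N with
  | zero => simp
  | succ N ih =>
    rw [sum_Icc_succ_top (by omega), sub_self, add_zero]
    rcases Nat.eq_zero_or_pos N with rfl | hN
    · simp
    · have h0 : (0 : ℝ) < N := by exact_mod_cast hN
      have h1 : Real.log ((N + 1 : ℕ) : ℝ) - Real.log N ≤ 1 / N := by
        rw [← Real.log_div (by positivity) (by positivity)]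
        have h2 := Real.log_le_sub_one_of_pos (x := ((N + 1 : ℕ) : ℝ) / N) (by positivity)
        refine h2.trans (le_of_eq ?_)
        push_cast
        field_simp
        ring
      have h3 : ∑ n ∈ Icc 1 N, (Real.log ((N + 1 : ℕ) : ℝ) - Real.log n) =
          ∑ n ∈ Icc 1 N, (Real.log N - Real.log n) +
            N * (Real.log ((N + 1 : ℕ) : ℝ) - Real.log N) := by
        rw [sum_sub_distrib, sum_sub_distrib, sum_const, sum_const, Nat.card_Icc,
          Nat.add_sub_cancel, nsmul_eq_mul, nsmul_eq_mul]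
        ring
      rw [h3]
      have h4 : (N : ℝ) * (Real.log ((N + 1 : ℕ) : ℝ) - Real.log N) ≤ 1 := by
        calc (N : ℝ) * (Real.log ((N + 1 : ℕ) : ℝ) - Real.log N) ≤ N * (1 / N) :=
              mul_le_mul_of_nonneg_left h1 h0.le
          _ = 1 := by field_simp
      push_cast
      push_cast at h4
      linarith

/-- the logarithmic sum -/
noncomputable def LL (N : ℕ) : ℝ := ∑ m ∈ Icc 1 N, wt (gW ∅) m / m

theorem gW_e (p : ℕ) : gW ∅ p = if Ine p then 1 else 0 := by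
  unfold gW
  rw [prod_empty]

theorem abs_gW (W : Finset ℕ) (p : ℕ) : |gW W p| = gW ∅ p := by
  rw [gW_e]
  unfold gW
  split_ifs
  · rw [abs_prod]
    refine prod_eq_one fun u _ => ?_
    unfold sgz
    split_ifs <;> norm_num
  · norm_num

theorem abs_wt (W : Finset ℕ) (n : ℕ) : |wt (gW W) n| = wt (gW ∅) n := by
  unfold wt
  split_ifs
  · rw [abs_prod]
    exact prod_congr rfl fun p _ => abs_gW W p
  · norm_num

theorem wt_nn (n : ℕ) : 0 ≤ wt (gW ∅) n := by
  rw [← abs_wt ∅ n]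
  exact abs_nonneg _

theorem wt_le (n : ℕ) : wt (gW ∅) n ≤ 1 := by
  unfold wt
  split_ifs
  · refine prod_le_one (fun p _ => ?_) fun p _ => ?_
    · rw [gW_e]; split_ifs <;> norm_num
    · rw [gW_e]; split_ifs <;> norm_num
  · norm_num

/-- the error term -/
theorem err' (W : Finset ℕ) (N : ℕ) : |∑ m ∈ Icc 1 N, wt (gW W) m *
    ∑ p ∈ (Icc 1 (N / m)).filter (fun p => p.Prime ∧ p ∣ m), gW W p * Real.log p| ≤ C0 * N := by
  refine le_trans (le_trans (abs_sum_le_sum_abs _ _) (sum_le_sum fun m _ => ?_)) (err N)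
  rw [abs_mul, abs_wt]
  refine (mul_le_of_le_one_left (abs_nonneg _) (wt_le m)).trans
    ((abs_sum_le_sum_abs _ _).trans (sum_le_sum fun p _ => ?_))
  rw [abs_mul, abs_gW, abs_of_nonneg (Real.log_natCast_nonneg p)]
  refine mul_le_of_le_one_left (Real.log_natCast_nonneg p) ?_
  rw [gW_e]
  split_ifs <;> norm_num

/-- the counting function -/
noncomputable def GG (N : ℕ) : ℝ := ∑ n ∈ Icc 1 N, wt (gW ∅) n

/-- from a limit to a bound for all `n` -/
theorem bnd {F : ℕ → ℝ} {c : ℝ} (h : Tendsto (fun n : ℕ => F n / n) atTop (𝓝 c)) {ε : ℝ}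
    (hε : 0 < ε) : ∃ K : ℝ, 0 ≤ K ∧ ∀ n : ℕ, |F n - c * n| ≤ ε * n + K := by
  obtain ⟨n₀, hn⟩ := (Metric.tendsto_atTop.1 h) ε hε
  refine ⟨∑ k ∈ range (n₀ + 1), |F k - c * k|, sum_nonneg fun _ _ => abs_nonneg _, fun n => ?_⟩
  by_cases h1 : n ≤ n₀
  · have h2 : |F n - c * n| ≤ ∑ k ∈ range (n₀ + 1), |F k - c * k| :=
      single_le_sum (f := fun k => |F k - c * k|) (fun _ _ => abs_nonneg _)
        (mem_range.2 (by omega))
    have h3 : 0 ≤ ε * n := by positivity
    linarith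
  · have h2 := hn n (by omega)
    rw [Real.dist_eq] at h2
    have h0 : (0 : ℝ) < n := by
      have : 0 < n := by omega
      exact_mod_cast this
    have h3 : F n - c * n = (F n / n - c) * n := by field_simp
    have h4 : |F n - c * n| ≤ ε * n := by
      rw [h3, abs_mul, abs_of_pos h0]
      exact mul_le_mul_of_nonneg_right h2.le h0.le
    have h5 : 0 ≤ ∑ k ∈ range (n₀ + 1), |F k - c * k| := sum_nonneg fun _ _ => abs_nonneg _
    linarith

/-- the upper bound -/
theorem upper {U W : Finset ℕ} (hU : SpU U) (hW : W ⊆ U) (hW0 : W ≠ ∅) {ε : ℝ} (hε : 0 < ε) :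
    ∃ K : ℝ, ∀ N : ℕ, |∑ n ∈ Icc 1 N, wt (gW W) n| * Real.log N ≤ ε * (N * LL N) + K * N := by
  obtain ⟨K, hK0, hK⟩ := bnd (tF_gW hU hW hW0) hε
  refine ⟨K + C0 + 1, fun N => ?_⟩
  have h1 : |∑ m ∈ Icc 1 N, wt (gW W) m * tF (gW W) (N / m)| ≤ ε * (N * LL N) + K * N := by
    calc |∑ m ∈ Icc 1 N, wt (gW W) m * tF (gW W) (N / m)|
        ≤ ∑ m ∈ Icc 1 N, (ε * (N * (wt (gW ∅) m / m)) + K) := by
          refine (abs_sum_le_sum_abs _ _).trans (sum_le_sum fun m hm => ?_)
          have hm0 : (0 : ℝ) < m := by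
            have := (mem_Icc.1 hm).1
            exact_mod_cast this
          rw [abs_mul, abs_wt]
          have h2 := hK (N / m)
          rw [zero_mul, sub_zero] at h2
          have h3 : ((N / m : ℕ) : ℝ) ≤ N / m := Nat.cast_div_le
          calc wt (gW ∅) m * |tF (gW W) (N / m)| ≤ wt (gW ∅) m * (ε * (N / m) + K) := by
                refine mul_le_mul_of_nonneg_left (h2.trans ?_) (wt_nn m)
                have := mul_le_mul_of_nonneg_left h3 hε.le
                linarith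
            _ = ε * (N * (wt (gW ∅) m / m)) + wt (gW ∅) m * K := by ring
            _ ≤ ε * (N * (wt (gW ∅) m / m)) + K := by
                have := mul_le_of_le_one_left hK0 (wt_le m)
                linarith
      _ = ε * (N * LL N) + K * N := by
          rw [sum_add_distrib, ← mul_sum, ← mul_sum, sum_const, Nat.card_Icc, Nat.add_sub_cancel,
            nsmul_eq_mul]
          unfold LL
          ring
  have h2 := ident (gW W) N
  simp only [mul_sub, sum_sub_distrib] at h2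
  have h3 := err' W N
  have h4 : |∑ n ∈ Icc 1 N, wt (gW W) n * (Real.log N - Real.log n)| ≤ N := by
    refine (abs_sum_le_sum_abs _ _).trans (le_trans (sum_le_sum fun n hn => ?_) (sum_log_le N))
    obtain ⟨h5, h6⟩ := mem_Icc.1 hn
    have h7 : 0 ≤ Real.log N - Real.log n := by
      have h8 : Real.log (n : ℝ) ≤ Real.log N := Real.log_le_log (by exact_mod_cast h5)
        (by exact_mod_cast h6)
      linarith
    rw [abs_mul, abs_wt, abs_of_nonneg h7]
    exact mul_le_of_le_one_left h7 (wt_le n)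
  have h5 : (∑ n ∈ Icc 1 N, wt (gW W) n) * Real.log N = ∑ n ∈ Icc 1 N, wt (gW W) n * Real.log n +
      ∑ n ∈ Icc 1 N, wt (gW W) n * (Real.log N - Real.log n) := by
    rw [← sum_add_distrib, sum_mul]
    exact sum_congr rfl fun n _ => by ring
  have h6 : |∑ n ∈ Icc 1 N, wt (gW W) n| * Real.log N =
      |(∑ n ∈ Icc 1 N, wt (gW W) n) * Real.log N| := by
    rw [abs_mul, abs_of_nonneg (Real.log_natCast_nonneg N)]
  rw [h6, h5, h2]
  have h7 := abs_add_le (∑ m ∈ Icc 1 N, wt (gW W) m * tF (gW W) (N / m) -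
    ∑ m ∈ Icc 1 N, wt (gW W) m * ∑ p ∈ (Icc 1 (N / m)).filter (fun p => p.Prime ∧ p ∣ m),
      gW W p * Real.log p) (∑ n ∈ Icc 1 N, wt (gW W) n * (Real.log N - Real.log n))
  have h8 := abs_sub (∑ m ∈ Icc 1 N, wt (gW W) m * tF (gW W) (N / m))
    (∑ m ∈ Icc 1 N, wt (gW W) m * ∑ p ∈ (Icc 1 (N / m)).filter (fun p => p.Prime ∧ p ∣ m),
      gW W p * Real.log p)
  linarith

/-- the lower bound -/
theorem lower : ∃ c K : ℝ, 0 < c ∧ ∀ N : ℕ, c * (N * LL N) - K * N ≤ GG N * Real.log N := by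
  obtain ⟨c, hc, h⟩ := tF_one
  obtain ⟨K, hK0, hK⟩ := bnd h (half_pos hc)
  refine ⟨c / 2, c / 2 + K + C0, half_pos hc, fun N => ?_⟩
  have h1 : c / 2 * (N * LL N) - (c / 2 + K) * N ≤
      ∑ m ∈ Icc 1 N, wt (gW ∅) m * tF (gW ∅) (N / m) := by
    calc c / 2 * (N * LL N) - (c / 2 + K) * N
        = ∑ m ∈ Icc 1 N, (c / 2 * (N * (wt (gW ∅) m / m)) - (c / 2 + K)) := by
          rw [sum_sub_distrib, ← mul_sum, ← mul_sum, sum_const, Nat.card_Icc, Nat.add_sub_cancel,
            nsmul_eq_mul]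
          unfold LL
          ring
      _ ≤ ∑ m ∈ Icc 1 N, wt (gW ∅) m * tF (gW ∅) (N / m) := by
          refine sum_le_sum fun m hm => ?_
          have hm1 := (mem_Icc.1 hm).1
          have hm0 : (0 : ℝ) < m := by exact_mod_cast hm1
          have h2 := (abs_le.1 (hK (N / m))).1
          have h3 : (N : ℝ) / m - 1 ≤ ((N / m : ℕ) : ℝ) := by
            have h4 := Nat.lt_div_mul_add hm1 (a := N)
            have h5 : (N : ℝ) < ((N / m : ℕ) : ℝ) * m + m := by exact_mod_cast h4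
            have h6 : (N : ℝ) / m < ((N / m : ℕ) : ℝ) + 1 := by
              rw [div_lt_iff₀ hm0]
              linarith
            linarith
          have h4 : c / 2 * ((N : ℝ) / m) - (c / 2 + K) ≤ tF (gW ∅) (N / m) := by
            have := mul_le_mul_of_nonneg_left h3 (half_pos hc).le
            linarith
          calc c / 2 * (N * (wt (gW ∅) m / m)) - (c / 2 + K)
              ≤ c / 2 * (N * (wt (gW ∅) m / m)) - wt (gW ∅) m * (c / 2 + K) := by
                have := mul_le_of_le_one_left (by positivity : 0 ≤ c / 2 + K) (wt_le m)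
                linarith
            _ = wt (gW ∅) m * (c / 2 * ((N : ℝ) / m) - (c / 2 + K)) := by ring
            _ ≤ _ := mul_le_mul_of_nonneg_left h4 (wt_nn m)
  have h2 := ident (gW ∅) N
  simp only [mul_sub, sum_sub_distrib] at h2
  have h3 := (abs_le.1 (err' ∅ N)).2
  have h4 : ∑ n ∈ Icc 1 N, wt (gW ∅) n * Real.log n ≤ GG N * Real.log N := by
    unfold GG
    rw [sum_mul]
    refine sum_le_sum fun n hn => mul_le_mul_of_nonneg_left ?_ (wt_nn n)
    obtain ⟨h5, h6⟩ := mem_Icc.1 hn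
    exact Real.log_le_log (by exact_mod_cast h5) (by exact_mod_cast h6)
  linarith

theorem LL_inf : Tendsto LL atTop atTop := by
  obtain ⟨C, hC⟩ := Pool.Agent.Y405.CQ.t_MER 5 (by norm_num)
  have h1 : ∀ N : ℕ, 3 ≤ N → 1 / 24 * Real.log (Real.log N) - C ≤ LL N := by
    intro N hN
    have h2 := (abs_le.1 (hC N hN)).1
    have h3 : ∑ p ∈ (range (N + 1)).filter (fun p => p.Prime ∧ p % 56 = 5 % 56), (1 : ℝ) / p ≤
        LL N := by
      calc ∑ p ∈ (range (N + 1)).filter (fun p => p.Prime ∧ p % 56 = 5 % 56), (1 : ℝ) / p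
          ≤ ∑ p ∈ (range (N + 1)).filter (fun p => p.Prime ∧ p % 56 = 5 % 56),
              wt (gW ∅) p / p := by
            refine sum_le_sum fun p hp => ?_
            obtain ⟨-, hp1, hp2⟩ := mem_filter.1 hp
            have hi : Ine p := by
              refine ⟨by omega, ?_⟩
              unfold R413.SQ.mk
              rw [if_neg (by omega)]
              norm_num
            have h4 : wt (gW ∅) p = 1 := by
              unfold wt
              rw [if_pos hp1.prime.squarefree, hp1.primeFactors, prod_singleton, gW_e, if_pos hi]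
            rw [h4]
        _ ≤ LL N := by
            unfold LL
            refine sum_le_sum_of_subset_of_nonneg ?_ fun p _ _ =>
              div_nonneg (wt_nn p) (Nat.cast_nonneg p)
            intro p hp
            obtain ⟨hp0, hp1, -⟩ := mem_filter.1 hp
            rw [mem_range] at hp0
            exact mem_Icc.2 ⟨hp1.one_lt.le, by omega⟩
    linarith
  have h2 : Tendsto (fun N : ℕ => 1 / 24 * Real.log (Real.log N) - C) atTop atTop := by
    refine tendsto_atTop_add_const_right _ _ (Tendsto.const_mul_atTop (by norm_num) ?_)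
    exact (Real.tendsto_log_atTop.comp Real.tendsto_log_atTop).comp tendsto_natCast_atTop_atTop
  refine tendsto_atTop_mono' _ ?_ h2
  filter_upwards [eventually_ge_atTop 3] with N hN
  exact h1 N hN

theorem GG_pos {N : ℕ} (hN : 1 ≤ N) : 0 < GG N := by
  have h1 : wt (gW ∅) 1 = 1 := by
    unfold wt
    rw [if_pos squarefree_one, Nat.primeFactors_one, prod_empty]
  have h2 : wt (gW ∅) 1 ≤ GG N := single_le_sum (f := wt (gW ∅)) (fun n _ => wt_nn n)
    (mem_Icc.2 ⟨le_rfl, hN⟩)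
  linarith

/-- **the characters have mean zero** -/
theorem mean_zero {U W : Finset ℕ} (hU : SpU U) (hW : W ⊆ U) (hW0 : W ≠ ∅) :
    Tendsto (fun N : ℕ => (∑ n ∈ Icc 1 N, wt (gW W) n) / GG N) atTop (𝓝 0) := by
  obtain ⟨c, K₁, hc, hl⟩ := lower
  rw [Metric.tendsto_atTop]
  intro ε hε
  obtain ⟨K₂, hu⟩ := upper hU hW hW0 (ε := ε * c / 4) (by positivity)
  have h1 := LL_inf.eventually_ge_atTop ((K₂ + ε / 2 * K₁) / (ε * c / 4))
  obtain ⟨n₀, hn⟩ := eventually_atTop.1 (h1.and (eventually_ge_atTop 3))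
  refine ⟨n₀, fun N hN => ?_⟩
  obtain ⟨h2, h3⟩ := hn N hN
  have hG := GG_pos (N := N) (by omega)
  have hlog : 0 < Real.log N := Real.log_pos (by
    have : 1 < N := by omega
    exact_mod_cast this)
  have hN0 : (0 : ℝ) < N := by
    have : 0 < N := by omega
    exact_mod_cast this
  rw [dist_zero_right, Real.norm_eq_abs, abs_div, abs_of_pos hG, div_lt_iff₀ hG]
  have h4 := hu N
  have h5 := hl N
  rw [div_le_iff₀ (by positivity)] at h2
  have h6 : |∑ n ∈ Icc 1 N, wt (gW W) n| * Real.log N ≤ (ε / 2 * GG N) * Real.log N := by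
    have h7 := mul_le_mul_of_nonneg_right h2 hN0.le
    have h8 := mul_le_mul_of_nonneg_left h5 (half_pos hε).le
    nlinarith
  have h7 := le_of_mul_le_mul_right h6 hlog
  have h8 : ε / 2 * GG N < ε * GG N := by nlinarith
  linarith

end Pool.Agent.J4H77.GF
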